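import Mathlib

/-!
Problem MP_830418_an.  Rich words, part 6: counting functions avoiding a pattern on disjoint
pairs of coordinates.
-/

open Finset

namespace Pool.Agent.Rich

variable {ι C : Type*} [Fintype ι] [DecidableEq ι] [Fintype C] [DecidableEq C]

/-- functions with no pattern `(c₀, c₁)` on the first `N` pairs -/
def avoidSet (x y : ℕ → ι) (c₀ c₁ : C) (N : ℕ) : Finset (ι → C) :=
  univ.filter fun f => ∀ q < N, ¬ (f (x q) = c₀ ∧ f (y q) = c₁)

theorem avoid_step (x y : ℕ → ι) (c₀ c₁ : C) (N : ℕ) (hxy : x N ≠ y N)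
    (hx : ∀ q < N, x q ≠ x N ∧ x q ≠ y N ∧ y q ≠ x N ∧ y q ≠ y N) :
    (avoidSet x y c₀ c₁ (N + 1)).card * (Fintype.card C * Fintype.card C) =
      (avoidSet x y c₀ c₁ N).card * (Fintype.card C * Fintype.card C - 1) := by
  classical
  set V := (avoidSet x y c₀ c₁ N).filter fun f => f (x N) = c₀ ∧ f (y N) = c₁ with hV
  have h1 : (avoidSet x y c₀ c₁ N).card = (avoidSet x y c₀ c₁ (N + 1)).card + V.card := by
    have := Finset.card_filter_add_card_filter_not (s := avoidSet x y c₀ c₁ N)
      (fun f => f (x N) = c₀ ∧ f (y N) = c₁)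
    rw [← hV] at this
    have h2 : (avoidSet x y c₀ c₁ N).filter (fun f => ¬ (f (x N) = c₀ ∧ f (y N) = c₁)) =
        avoidSet x y c₀ c₁ (N + 1) := by
      ext f
      simp only [avoidSet, mem_filter, mem_univ, true_and]
      constructor
      · rintro ⟨h, h'⟩ q hq
        rcases Nat.lt_succ_iff_lt_or_eq.1 hq with h3 | h3
        · exact h q h3
        · rw [h3]; exact h'
      · intro h
        exact ⟨fun q hq => h q (by omega), h N (by omega)⟩
    rw [h2] at this
    omega
  have h3 : V.card * (Fintype.card C * Fintype.card C) = (avoidSet x y c₀ c₁ N).card := by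
    rw [← Fintype.card_prod, ← Finset.card_univ (α := C × C), ← Finset.card_product]
    refine Finset.card_bij
      (fun (t : (ι → C) × (C × C)) _ =>
        Function.update (Function.update t.1 (x N) t.2.1) (y N) t.2.2) ?_ ?_ ?_
    · rintro ⟨f, a, b⟩ ht
      simp only [mem_product, mem_univ, and_true, hV, avoidSet, mem_filter, true_and] at ht ⊢
      intro q hq
      have hh := hx q hq
      rw [Function.update_of_ne hh.2.1, Function.update_of_ne hh.1,
        Function.update_of_ne hh.2.2.2, Function.update_of_ne hh.2.2.1]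
      exact ht.1 q hq
    · rintro ⟨f, a, b⟩ ht ⟨f', a', b'⟩ ht' hEq
      simp only [mem_product, mem_univ, and_true, hV, avoidSet, mem_filter, true_and] at ht ht'
      simp only at hEq
      have e1 : b = b' := by
        have := congrFun hEq (y N)
        simpa using this
      have e2 : a = a' := by
        have := congrFun hEq (x N)
        simpa [Function.update_of_ne hxy] using this
      have e3 : f = f' := by
        funext j
        by_cases hj : j = y N
        · rw [hj, ht.2.2, ht'.2.2]
        · by_cases hj' : j = x N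
          · rw [hj', ht.2.1, ht'.2.1]
          · have := congrFun hEq j
            simpa [Function.update_of_ne hj, Function.update_of_ne hj'] using this
      rw [e1, e2, e3]
    · intro g hg
      refine ⟨(Function.update (Function.update g (x N) c₀) (y N) c₁, (g (x N), g (y N))), ?_, ?_⟩
      · simp only [mem_product, mem_univ, and_true, hV, avoidSet, mem_filter, true_and] at hg ⊢
        refine ⟨fun q hq => ?_, ?_, ?_⟩
        · have hh := hx q hq
          rw [Function.update_of_ne hh.2.1, Function.update_of_ne hh.1,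
            Function.update_of_ne hh.2.2.2, Function.update_of_ne hh.2.2.1]
          exact hg q hq
        · rw [Function.update_of_ne hxy, Function.update_self]
        · rw [Function.update_self]
      · funext j
        by_cases hj : j = y N
        · rw [hj, Function.update_self]
        · rw [Function.update_of_ne hj]
          by_cases hj' : j = x N
          · rw [hj', Function.update_self]
          · rw [Function.update_of_ne hj']
            show Function.update (Function.update g (x N) c₀) (y N) c₁ j = g j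
            rw [Function.update_of_ne hj, Function.update_of_ne hj']
  have hpos : 1 ≤ Fintype.card C * Fintype.card C := by
    have : 0 < Fintype.card C := Fintype.card_pos_iff.2 ⟨c₀⟩
    exact Nat.mul_pos this this
  obtain ⟨k, hk⟩ := Nat.exists_eq_add_of_le hpos
  rw [hk] at h3 ⊢
  rw [Nat.add_sub_cancel_left]
  nlinarith

theorem avoid_card (x y : ℕ → ι) (c₀ c₁ : C) (N : ℕ) (hxy : ∀ q < N, x q ≠ y q)
    (hx : ∀ q' < N, ∀ q < q', x q ≠ x q' ∧ x q ≠ y q' ∧ y q ≠ x q' ∧ y q ≠ y q') :
    (avoidSet x y c₀ c₁ N).card * (Fintype.card C * Fintype.card C) ^ N =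
      Fintype.card (ι → C) * (Fintype.card C * Fintype.card C - 1) ^ N := by
  induction N with
  | zero =>
    simp [avoidSet]
  | succ N ih =>
    have h1 := avoid_step x y c₀ c₁ N (hxy N (by omega)) (fun q hq => hx N (by omega) q hq)
    have h2 := ih (fun q hq => hxy q (by omega)) (fun q' hq' => hx q' (by omega))
    calc (avoidSet x y c₀ c₁ (N + 1)).card * (Fintype.card C * Fintype.card C) ^ (N + 1)
        = ((avoidSet x y c₀ c₁ (N + 1)).card * (Fintype.card C * Fintype.card C)) *
          (Fintype.card C * Fintype.card C) ^ N := by ring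
      _ = ((avoidSet x y c₀ c₁ N).card * (Fintype.card C * Fintype.card C) ^ N) *
          (Fintype.card C * Fintype.card C - 1) := by rw [h1]; ring
      _ = _ := by rw [h2]; ring

/-- real form, `C` has `2 ^ J` elements -/
theorem avoid_real {J : ℕ} (hC : Fintype.card C = 2 ^ J) (x y : ℕ → ι) (c₀ c₁ : C) (N : ℕ)
    (hxy : ∀ q < N, x q ≠ y q)
    (hx : ∀ q' < N, ∀ q < q', x q ≠ x q' ∧ x q ≠ y q' ∧ y q ≠ x q' ∧ y q ≠ y q') :
    ((avoidSet x y c₀ c₁ N).card : ℝ) = (1 - (4 : ℝ)⁻¹ ^ J) ^ N * Fintype.card (ι → C) := by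
  have h := avoid_card x y c₀ c₁ N hxy hx
  rw [hC] at h
  have h4 : (2 ^ J * 2 ^ J : ℕ) = 4 ^ J := by rw [← mul_pow]; norm_num
  rw [h4] at h
  have h5 : ((avoidSet x y c₀ c₁ N).card : ℝ) * (4 ^ J) ^ N =
      Fintype.card (ι → C) * ((4 : ℝ) ^ J - 1) ^ N := by
    have h6 : (1 : ℕ) ≤ 4 ^ J := Nat.one_le_pow _ _ (by norm_num)
    have := congrArg (Nat.cast (R := ℝ)) h
    push_cast [Nat.cast_sub h6] at this
    simpa using this
  have h7 : (0 : ℝ) < (4 ^ J) ^ N := by positivity
  have h8 : (1 - (4 : ℝ)⁻¹ ^ J) ^ N = ((4 : ℝ) ^ J - 1) ^ N / (4 ^ J) ^ N := by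
    rw [← div_pow]
    congr 1
    have : (4 : ℝ) ^ J ≠ 0 := by positivity
    rw [inv_pow, eq_div_iff this, sub_mul, inv_mul_cancel₀ this, one_mul]
  rw [h8]
  field_simp
  linarith

end Pool.Agent.Rich
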