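import Pool.Agent.Lib.MP_830418_an.Rich.Iter
import Pool.Agent.Lib.MP_830418_an.Rich.Count

/-!
Problem MP_830418_an.  Rich words, part 7: existence of letters which separate all good words.
-/

open Filter

namespace Pool.Agent.Rich

universe u v

/-- ultrafilter dichotomy for the iterated quantifier -/
theorem AE.not {G : Type u} {α : Type v} {𝒰 : Ultrafilter G} [Group G] {us : List α}
    {P : List (α × G) → Prop} (h : ¬ AE 𝒰 us P) : AE 𝒰 us (fun l => ¬ P l) := by
  induction us generalizing P with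
  | nil => exact h
  | cons u us ih =>
    have h1 : ¬ ∀ᶠ x in (𝒰 : Filter G), AE 𝒰 us (fun l => P ((u, x) :: l)) := h
    have h2 : ∀ᶠ x in (𝒰 : Filter G), ¬ AE 𝒰 us (fun l => P ((u, x) :: l)) :=
      Ultrafilter.eventually_not.2 h1
    exact h2.mono fun x hx => ih hx

/-- the patterns of a word given by a matrix -/
def pat {J m : ℕ} (i : Fin J → Fin m → Bool) : ℕ → ℕ → Bool :=
  fun s l => if h : s < J ∧ l < m then i ⟨s, h.1⟩ ⟨l, h.2⟩ else false

/-- value of a word -/
def wval {X : Type u} [Group X] {J m : ℕ} (c : Fin m → X) (i : Fin J → Fin m → Bool) : X :=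
  (List.ofFn fun r : Fin J => (List.ofFn fun s : Fin m => if i r s then c s else 1).prod).prod

theorem ofFn_eq_range {β : Type*} (J : ℕ) (f : ℕ → β) :
    (List.ofFn fun r : Fin J => f r) = (List.range J).map f := by
  apply List.ext_getElem
  · simp
  · intro n h1 h2
    simp

theorem wval_eq {X : Type u} [Group X] {J m : ℕ} (c : Fin m → X) (i : Fin J → Fin m → Bool)
    (xs : List (ℕ × X)) (hxs : xs = List.ofFn fun s : Fin m => ((s : ℕ), c s)) :
    wval c i = vl (pat i) J xs := by
  unfold wval vl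
  rw [run_list, ← ofFn_eq_range]
  congr 1
  congr 1
  funext r
  subst hxs
  unfold ps
  rw [List.map_ofFn]
  congr 1
  congr 1
  funext s
  simp [pat, r.2, s.2]

/-- a good matrix: every separator pattern occurs in each of the `2 (R+1)` blocks -/
def IsGood (R m J : ℕ) (i : Fin J → Fin m → Bool) : Prop :=
  ∀ b, b < 2 * (R + 1) → HasE (pat i) J
    (List.range' (b * (m / (2 * (R + 1)))) (m / (2 * (R + 1))))

theorem stg_mono {α : Type v} {p p' : ℕ → α → Bool} {r r' n : ℕ} {A : List α}
    (h : Stg p p' r r' (n + 1) A) : Stg p p' r r' n A := by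
  induction n generalizing A with
  | zero => trivial
  | succ n ih =>
    obtain ⟨A', D₁, D₂, Z, hA, h1, h2, h3, h4, h5⟩ := h
    exact ⟨A', D₁, D₂, Z, hA, h1, h2, h3, h4, ih h5⟩

theorem stg_le {α : Type v} {p p' : ℕ → α → Bool} {r r' n k : ℕ} {A : List α}
    (h : Stg p p' r r' n A) (hk : k ≤ n) : Stg p p' r r' k A := by
  obtain ⟨d, rfl⟩ := Nat.exists_eq_add_of_le hk
  clear hk
  induction d with
  | zero => exact h
  | succ d ih => exact ih (stg_mono h)

theorem good_stg {R m J J' : ℕ} {i : Fin J → Fin m → Bool} {i' : Fin J' → Fin m → Bool}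
    (h : IsGood R m J i) (h' : IsGood R m J' i') (n : ℕ) (hn : n ≤ R + 1) :
    Stg (pat i) (pat i') J J' n (List.range' 0 (2 * n * (m / (2 * (R + 1))))) := by
  induction n with
  | zero => trivial
  | succ n ih =>
    set M := m / (2 * (R + 1)) with hM
    refine ⟨List.range' 0 (2 * n * M), List.range' (2 * n * M) M,
      List.range' ((2 * n + 1) * M) M, [], ?_, ?_, ?_, ?_, ?_, ih (by omega)⟩
    · have e1 : 2 * (n + 1) * M = 2 * n * M + (M + M) := by ring
      rw [e1, List.append_nil]
      have e2 : List.range' 0 (2 * n * M + (M + M)) =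
          List.range' 0 (2 * n * M) ++ List.range' (2 * n * M) (M + M) := by
        have := (List.range'_append (s := 0) (m := 2 * n * M) (n := M + M) (step := 1))
        simpa using this.symm
      have e3 : List.range' (2 * n * M) (M + M) =
          List.range' (2 * n * M) M ++ List.range' ((2 * n + 1) * M) M := by
        have := (List.range'_append (s := 2 * n * M) (m := M) (n := M) (step := 1))
        rw [show (2 * n + 1) * M = 2 * n * M + 1 * M by ring]
        exact this.symm
      rw [e2, e3]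
    · exact h (2 * n) (by omega)
    · exact h' (2 * n) (by omega)
    · exact h (2 * n + 1) (by omega)
    · exact h' (2 * n + 1) (by omega)

theorem good_inj {X : Type u} [Group X] {𝒰 : Ultrafilter X} (hI : Idem 𝒰) (hC : FinCent X)
    {R m J J' : ℕ} (hJ : J ≤ R) {i : Fin J → Fin m → Bool}
    {i' : Fin J' → Fin m → Bool} (h : IsGood R m J i) (h' : IsGood R m J' i')
    (hR : AE 𝒰 (List.range m) (fun xs => vl (pat i) J xs = vl (pat i') J' xs)) :
    (⟨J, i⟩ : Σ J, Fin J → Fin m → Bool) = ⟨J', i'⟩ := by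
  have hs : Stg (pat i) (pat i') J J' (J + 1) (List.range m) := by
    have h1 := stg_le (good_stg h h' (R + 1) le_rfl) (k := J + 1) (by omega)
    have h2 := h1.append (List.range' (2 * (R + 1) * (m / (2 * (R + 1))))
      (m - 2 * (R + 1) * (m / (2 * (R + 1)))))
    have h3 : List.range m = List.range' 0 (2 * (R + 1) * (m / (2 * (R + 1)))) ++
        List.range' (2 * (R + 1) * (m / (2 * (R + 1))))
          (m - 2 * (R + 1) * (m / (2 * (R + 1)))) := by
      have h4 : 2 * (R + 1) * (m / (2 * (R + 1))) ≤ m := Nat.mul_div_le m _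
      have := (List.range'_append (s := 0) (m := 2 * (R + 1) * (m / (2 * (R + 1))))
        (n := m - 2 * (R + 1) * (m / (2 * (R + 1)))) (step := 1))
      rw [zero_add, one_mul, Nat.add_sub_cancel' h4] at this
      rw [this, List.range_eq_range']
    rw [h3]
    exact h2
  obtain ⟨h1, h2⟩ := rich_inj hI hC hR hs
  subst h1
  have h3 : i = i' := by
    funext r s
    have := h2 s (by simp) r r.2
    simpa [pat, r.2, s.2] using this
  rw [h3]

theorem range_split {a M q : ℕ} (hq : 2 * q + 1 < M) :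
    List.range' a M = List.range' a (2 * q) ++ (a + 2 * q) :: (a + 2 * q + 1) ::
      List.range' (a + 2 * q + 2) (M - (2 * q + 2)) := by
  have h1 : M = 2 * q + (M - 2 * q) := by omega
  have h2 : M - 2 * q = (M - (2 * q + 2)) + 1 + 1 := by omega
  conv_lhs => rw [h1]
  have := (List.range'_append (s := a) (m := 2 * q) (n := M - 2 * q) (step := 1))
  rw [← this, h2, List.range'_succ, List.range'_succ, one_mul]

/-- the separator column -/
def colE {J : ℕ} (s : Fin J) : Fin J → Bool := fun t => decide (t = s)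

theorem sep_of_cols {J m : ℕ} {i : Fin J → Fin m → Bool} {s : Fin J} {l : ℕ} (hl : l + 1 < m)
    (h1 : (fun t => i t ⟨l, by omega⟩) = colE s) (h2 : (fun t => i t ⟨l + 1, hl⟩) = fun _ => false) :
    Sep (pat i) J s l (l + 1) where
  lt := s.2
  mem := by
    have := congrFun h1 s
    simp only [colE, decide_true] at this
    have hlm : l < m := by omega
    simp only [pat, s.2, hlm, and_self, dif_pos, Fin.eta]
    exact this
  nmem := fun t ht hne => by
    have := congrFun h1 ⟨t, ht⟩
    have hlm : l < m := by omega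
    simp only [pat, ht, hlm, and_self, dif_pos]
    rw [this]
    simp only [colE, decide_eq_false_iff_not]
    intro hh
    exact hne (by rw [← hh])
  nmem' := fun t ht => by
    have := congrFun h2 ⟨t, ht⟩
    simp only [pat, ht, hl, and_self, dif_pos]
    exact this

open Classical in
theorem count_bad (R m J : ℕ) (hm : 0 < m) :
    ((Finset.univ.filter fun i : Fin J → Fin m → Bool => ¬ IsGood R m J i).card : ℝ) ≤
      2 * (R + 1) * J * (1 - (4 : ℝ)⁻¹ ^ J) ^ (m / (2 * (R + 1)) / 2) * 2 ^ (J * m) := by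
  set M := m / (2 * (R + 1)) with hM
  have hMm : 2 * (R + 1) * M ≤ m := Nat.mul_div_le m _
  let x : ℕ → ℕ → Fin m := fun b q => ⟨(b * M + 2 * q) % m, Nat.mod_lt _ hm⟩
  let y : ℕ → ℕ → Fin m := fun b q => ⟨(b * M + 2 * q + 1) % m, Nat.mod_lt _ hm⟩
  have hbound : ∀ b, b < 2 * (R + 1) → ∀ q, q < M / 2 → b * M + 2 * q + 1 < m ∧ 2 * q + 1 < M := by
    intro b hb q hq
    have h1 : 2 * q + 1 < M := by omega
    have h2 : b * M + M ≤ 2 * (R + 1) * M := by
      have : (b + 1) * M ≤ 2 * (R + 1) * M := Nat.mul_le_mul_right M hb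
      linarith [this, show (b + 1) * M = b * M + M by ring]
    constructor
    · omega
    · exact h1
  have hsub : (Finset.univ.filter fun i : Fin J → Fin m → Bool => ¬ IsGood R m J i) ⊆
      (Finset.range (2 * (R + 1))).biUnion fun b => (Finset.univ : Finset (Fin J)).biUnion fun s =>
        Finset.univ.filter fun i : Fin J → Fin m → Bool =>
          (fun l t => i t l) ∈ avoidSet (x b) (y b) (colE s) (fun _ => false) (M / 2) := by
    intro i hi
    simp only [Finset.mem_filter, Finset.mem_univ, true_and, Finset.mem_biUnion,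
      Finset.mem_range] at hi ⊢
    unfold IsGood HasE at hi
    push Not at hi
    obtain ⟨b, hb, s, hs, h⟩ := hi
    refine ⟨b, hb, ⟨s, hs⟩, ?_⟩
    simp only [avoidSet, Finset.mem_filter, Finset.mem_univ, true_and]
    intro q hq hcon
    obtain ⟨hb1, hb2⟩ := hbound b hb q hq
    obtain ⟨h1, h2⟩ := hcon
    refine h (List.range' (b * M) (2 * q)) (b * M + 2 * q) (b * M + 2 * q + 1)
      (List.range' (b * M + 2 * q + 2) (M - (2 * q + 2))) (range_split hb2) ?_
    refine sep_of_cols (s := ⟨s, hs⟩) hb1 ?_ ?_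
    · have : (⟨b * M + 2 * q, by omega⟩ : Fin m) = x b q := by
        apply Fin.ext
        simp only [x]
        rw [Nat.mod_eq_of_lt (by omega)]
      rw [this]; exact h1
    · have : (⟨b * M + 2 * q + 1, hb1⟩ : Fin m) = y b q := by
        apply Fin.ext
        simp only [y]
        rw [Nat.mod_eq_of_lt (by omega)]
      rw [this]; exact h2
  have hcardC : Fintype.card (Fin J → Bool) = 2 ^ J := by simp
  have hav : ∀ b, b < 2 * (R + 1) → ∀ s : Fin J,
      ((Finset.univ.filter fun i : Fin J → Fin m → Bool =>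
          (fun l t => i t l) ∈ avoidSet (x b) (y b) (colE s) (fun _ => false) (M / 2)).card : ℝ) ≤
        (1 - (4 : ℝ)⁻¹ ^ J) ^ (M / 2) * 2 ^ (J * m) := by
    intro b hb s
    have h1 : (Finset.univ.filter fun i : Fin J → Fin m → Bool =>
          (fun l t => i t l) ∈ avoidSet (x b) (y b) (colE s) (fun _ => false) (M / 2)).card ≤
        (avoidSet (x b) (y b) (colE s) (fun _ : Fin J => false) (M / 2)).card := by
      refine Finset.card_le_card_of_injOn (fun i l t => i t l) ?_ ?_
      · intro i hi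
        simpa using hi
      · intro i _ i' _ hii
        funext t l
        exact congrFun (congrFun hii l) t
    have hval : ∀ q, q < M / 2 → ((x b q : Fin m) : ℕ) = b * M + 2 * q ∧
        ((y b q : Fin m) : ℕ) = b * M + 2 * q + 1 := by
      intro q hq
      have := (hbound b hb q hq).1
      constructor
      · simp only [x]; rw [Nat.mod_eq_of_lt (by omega)]
      · simp only [y]; rw [Nat.mod_eq_of_lt (by omega)]
    have h2 := avoid_real hcardC (x b) (y b) (colE s) (fun _ : Fin J => false) (M / 2)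
      (fun q hq hc => by
        have h3 := hval q hq
        have := congrArg Fin.val hc
        omega)
      (fun q' hq' q hq => by
        have h3 := hval q (by omega)
        have h4 := hval q' hq'
        refine ⟨fun hc => ?_, fun hc => ?_, fun hc => ?_, fun hc => ?_⟩ <;>
        · have := congrArg Fin.val hc
          omega)
    have h3 : (Fintype.card (Fin m → Fin J → Bool) : ℝ) = 2 ^ (J * m) := by
      rw [Fintype.card_fun, hcardC, Fintype.card_fin, ← pow_mul]
      push_cast
      rfl
    rw [h3] at h2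
    calc _ ≤ ((avoidSet (x b) (y b) (colE s) (fun _ : Fin J => false) (M / 2)).card : ℝ) := by
          exact_mod_cast h1
      _ = _ := h2
  calc ((Finset.univ.filter fun i : Fin J → Fin m → Bool => ¬ IsGood R m J i).card : ℝ)
      ≤ (((Finset.range (2 * (R + 1))).biUnion fun b =>
        (Finset.univ : Finset (Fin J)).biUnion fun s =>
        Finset.univ.filter fun i : Fin J → Fin m → Bool =>
          (fun l t => i t l) ∈ avoidSet (x b) (y b) (colE s) (fun _ => false) (M / 2)).card : ℝ) := by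
        exact_mod_cast Finset.card_le_card hsub
    _ ≤ ∑ b ∈ Finset.range (2 * (R + 1)), ∑ s : Fin J,
        ((Finset.univ.filter fun i : Fin J → Fin m → Bool =>
          (fun l t => i t l) ∈ avoidSet (x b) (y b) (colE s) (fun _ => false) (M / 2)).card : ℝ) := by
        refine le_trans (Nat.cast_le.2 Finset.card_biUnion_le) ?_
        push_cast
        refine Finset.sum_le_sum fun b _ => ?_
        refine le_trans (Nat.cast_le.2 Finset.card_biUnion_le) ?_
        push_cast
        exact le_rfl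
    _ ≤ ∑ b ∈ Finset.range (2 * (R + 1)), ∑ _s : Fin J,
        (1 - (4 : ℝ)⁻¹ ^ J) ^ (M / 2) * 2 ^ (J * m) := by
        refine Finset.sum_le_sum fun b hb => Finset.sum_le_sum fun s _ => ?_
        exact hav b (Finset.mem_range.1 hb) s
    _ = _ := by
        simp only [Finset.sum_const, Finset.card_univ, Fintype.card_fin, Finset.card_range,
          nsmul_eq_mul]
        push_cast
        ring

open Classical in
/-- EXPORTED THEOREM: letters separating all good words. -/
theorem exists_letters {X : Type u} [Group X] [Infinite X]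
    (hC : ∀ g : X, g ≠ 1 → {x : X | Commute g x}.Finite) (R : ℕ) (ε : ℝ) (hε : 0 < ε) :
    ∃ m₀ : ℕ, ∀ m, m₀ ≤ m → ∃ (c : Fin m → X) (g₀ : X)
      (Good : (J : ℕ) → Finset (Fin J → Fin m → Bool)),
      (∀ J, J ≤ R → (((Good J)ᶜ).card : ℝ) ≤ ε * 2 ^ (J * m)) ∧
      (∀ J J', J ≤ R → J' ≤ R → ∀ i ∈ Good J, ∀ i' ∈ Good J', ∀ e e' : Bool,
        ((List.ofFn fun r : Fin J =>
            (List.ofFn fun s : Fin m => if i r s then c s else 1).prod).prod) *
            (if e then g₀ else 1) =
          ((List.ofFn fun r : Fin J' =>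
            (List.ofFn fun s : Fin m => if i' r s then c s else 1).prod).prod) *
            (if e' then g₀ else 1) →
        (⟨J, i⟩ : Σ J, Fin J → Fin m → Bool) = ⟨J', i'⟩ ∧ e = e') := by
  obtain ⟨𝒰, hI⟩ := exists_idem X
  -- the number of letters
  set θ : ℝ := 1 - (4 : ℝ)⁻¹ ^ R with hθ
  have hθ0 : 0 ≤ θ := by
    have : (4 : ℝ)⁻¹ ^ R ≤ 1 := pow_le_one₀ (by norm_num) (by norm_num)
    linarith
  have hθ1 : θ < 1 := by
    have : (0 : ℝ) < (4 : ℝ)⁻¹ ^ R := by positivity
    linarith
  set K : ℝ := 2 * (R + 1) * R + 1 with hK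
  have hK0 : 0 < K := by positivity
  obtain ⟨N, hN⟩ := exists_pow_lt_of_lt_one (div_pos hε hK0) hθ1
  refine ⟨4 * (R + 1) * (N + 1), fun m hm => ?_⟩
  have hm0 : 0 < m := lt_of_lt_of_le (by positivity) hm
  have hMN : N ≤ m / (2 * (R + 1)) / 2 := by
    rw [Nat.div_div_eq_div_mul, Nat.le_div_iff_mul_le (by positivity)]
    nlinarith
  let W := Σ J : Fin (R + 1), (Fin J → Fin m → Bool)
  have hall : AE 𝒰 (List.range m) (fun xs => ∀ q : W × W, IsGood R m q.1.1 q.1.2 →
      IsGood R m q.2.1 q.2.2 →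
      (⟨q.1.1, q.1.2⟩ : Σ J : ℕ, Fin J → Fin m → Bool) ≠ ⟨q.2.1, q.2.2⟩ →
      ¬ (vl (pat q.1.2) q.1.1 xs = vl (pat q.2.2) q.2.1 xs)) := by
    refine AE.all fun q => ?_
    by_cases h1 : IsGood R m q.1.1 q.1.2 ∧ IsGood R m q.2.1 q.2.2 ∧
      (⟨q.1.1, q.1.2⟩ : Σ J : ℕ, Fin J → Fin m → Bool) ≠ ⟨q.2.1, q.2.2⟩
    · obtain ⟨h1, h2, h3⟩ := h1
      have h4 : AE 𝒰 (List.range m) (fun xs =>
          ¬ (vl (pat q.1.2) q.1.1 xs = vl (pat q.2.2) q.2.1 xs)) := by
        refine AE.not fun hR => h3 ?_
        exact good_inj hI hC (by have := q.1.1.2; omega) h1 h2 hR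
      exact h4.mono fun xs h _ _ _ => h
    · refine AE.of_forall fun xs a b c => absurd ⟨a, b, c⟩ h1
  obtain ⟨xs, hxs, hP⟩ := hall.exists
  have hlen : xs.length = m := by
    have := congrArg List.length hxs
    simpa using this
  let c : Fin m → X := fun s => (xs[(s : ℕ)]'(by rw [hlen]; exact s.2)).2
  have hxc : xs = List.ofFn fun s : Fin m => ((s : ℕ), c s) := by
    apply List.ext_getElem
    · simp [hlen]
    · intro n h1 h2
      have h3 : (xs.map Prod.fst)[n]'(by simpa using h1) = n := by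
        simp [hxs]
      rw [List.getElem_map] at h3
      rw [List.getElem_ofFn]
      exact Prod.ext h3 rfl
  have hval : ∀ (J : ℕ) (i : Fin J → Fin m → Bool), ((List.ofFn fun r : Fin J =>
      (List.ofFn fun s : Fin m => if i r s then c s else 1).prod).prod) = vl (pat i) J xs :=
    fun J i => wval_eq c i xs hxc
  -- the last letter
  have hfin : (Set.range fun q : W × W => (vl (pat q.1.2) q.1.1 xs)⁻¹ *
      vl (pat q.2.2) q.2.1 xs).Finite := Set.finite_range _
  obtain ⟨g₀, hg₀⟩ := hfin.exists_notMem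
  refine ⟨c, g₀, fun J => Finset.univ.filter fun i => IsGood R m J i, ?_, ?_⟩
  · intro J hJ
    have h1 := count_bad R m J hm0
    have h2 : (Finset.univ.filter fun i : Fin J → Fin m → Bool => IsGood R m J i)ᶜ =
        Finset.univ.filter fun i : Fin J → Fin m → Bool => ¬ IsGood R m J i := by
      ext i; simp
    rw [h2]
    refine h1.trans ?_
    refine mul_le_mul_of_nonneg_right ?_ (by positivity)
    have h3 : (1 - (4 : ℝ)⁻¹ ^ J) ^ (m / (2 * (R + 1)) / 2) ≤ θ ^ N := by
      have h4 : 1 - (4 : ℝ)⁻¹ ^ J ≤ θ := by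
        have : (4 : ℝ)⁻¹ ^ R ≤ (4 : ℝ)⁻¹ ^ J :=
          pow_le_pow_of_le_one (by norm_num) (by norm_num) hJ
        linarith
      have h5 : 0 ≤ 1 - (4 : ℝ)⁻¹ ^ J := by
        have : (4 : ℝ)⁻¹ ^ J ≤ 1 := pow_le_one₀ (by norm_num) (by norm_num)
        linarith
      calc (1 - (4 : ℝ)⁻¹ ^ J) ^ (m / (2 * (R + 1)) / 2) ≤ θ ^ (m / (2 * (R + 1)) / 2) :=
            pow_le_pow_left₀ h5 h4 _
        _ ≤ θ ^ N := pow_le_pow_of_le_one hθ0 hθ1.le hMN
    have h6 : (J : ℝ) ≤ R := by exact_mod_cast hJ
    calc 2 * ((R : ℝ) + 1) * J * (1 - (4 : ℝ)⁻¹ ^ J) ^ (m / (2 * (R + 1)) / 2)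
        ≤ 2 * ((R : ℝ) + 1) * R * θ ^ N := by
          have h7 : 0 ≤ θ ^ N := pow_nonneg hθ0 N
          have h8 : 0 ≤ (1 - (4 : ℝ)⁻¹ ^ J) ^ (m / (2 * (R + 1)) / 2) := by
            apply pow_nonneg
            have : (4 : ℝ)⁻¹ ^ J ≤ 1 := pow_le_one₀ (by norm_num) (by norm_num)
            linarith
          gcongr
      _ ≤ K * θ ^ N := by
          have h7 : 0 ≤ θ ^ N := pow_nonneg hθ0 N
          have : 2 * ((R : ℝ) + 1) * R ≤ K := by rw [hK]; linarith
          exact mul_le_mul_of_nonneg_right this h7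
      _ ≤ K * (ε / K) := mul_le_mul_of_nonneg_left hN.le hK0.le
      _ = ε := by field_simp
  · intro J J' hJ hJ' i hi i' hi' e e' hEq
    simp only [Finset.mem_filter, Finset.mem_univ, true_and] at hi hi'
    rw [hval, hval] at hEq
    have hsame : vl (pat i) J xs = vl (pat i') J' xs →
        (⟨J, i⟩ : Σ J, Fin J → Fin m → Bool) = ⟨J', i'⟩ := by
      intro h1
      by_contra hne
      exact hP (⟨⟨J, by omega⟩, i⟩, ⟨⟨J', by omega⟩, i'⟩) hi hi' hne h1
    have hdiff : ∀ (J J' : ℕ) (_ : J ≤ R) (_ : J' ≤ R) (i : Fin J → Fin m → Bool)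
        (i' : Fin J' → Fin m → Bool), vl (pat i) J xs * g₀ ≠ vl (pat i') J' xs := by
      intro J J' hJ hJ' i i' h1
      apply hg₀
      refine ⟨(⟨⟨J, by omega⟩, i⟩, ⟨⟨J', by omega⟩, i'⟩), ?_⟩
      show (vl (pat i) J xs)⁻¹ * vl (pat i') J' xs = g₀
      rw [← h1, inv_mul_cancel_left]
    cases e <;> cases e'
    · simp only [Bool.false_eq_true, if_false, mul_one] at hEq
      exact ⟨hsame hEq, rfl⟩
    · simp only [Bool.false_eq_true, if_false, mul_one, if_true] at hEq
      exact absurd hEq.symm (hdiff J' J hJ' hJ i' i)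
    · simp only [Bool.false_eq_true, if_false, mul_one, if_true] at hEq
      exact absurd hEq (hdiff J J' hJ hJ' i i')
    · simp only [if_true] at hEq
      exact ⟨hsame (mul_right_cancel hEq), rfl⟩

end Pool.Agent.Rich
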