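import Pool.Agent.Lib.MP_830418_an.Rich.Letters

/-!
Problem MP_830418_an.  Rich words, part 8: second form of the existence of separating letters.
-/

namespace Pool.Agent.Rich

universe u

open Classical in
/-- Letters `c`, a further element `g` and sets `T r` of `r`-pass words (almost all of them), such
that the value of a word of `T r` is not the value of any other `r`-pass word, nor of a word of
`T r'` with `r' ≠ r`; and `g` does not map values of words to values of words. -/
theorem exists_letters2 {X : Type u} [Group X] [Infinite X]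
    (hC : ∀ g : X, g ≠ 1 → {x : X | Commute g x}.Finite) (R : ℕ) (ε : ℝ) (hε : 0 < ε) :
    ∃ m₀ : ℕ, ∀ m, m₀ ≤ m → ∃ (c : Fin m → X) (g : X)
      (T : (r : ℕ) → Finset (Fin r → Fin m → Bool)),
      (∀ r, r ≤ R → (1 - ε) * 2 ^ (m * r) ≤ ((T r).card : ℝ)) ∧
      (∀ r, r ≤ R → ∀ t ∈ T r, ∀ s : Fin r → Fin m → Bool, s ≠ t → wval c s ≠ wval c t) ∧
      (∀ r r', r ≤ R → r' ≤ R → r ≠ r' → ∀ t ∈ T r, ∀ s ∈ T r', wval c s ≠ wval c t) ∧
      (∀ r r', r ≤ R → r' ≤ R → ∀ (t : Fin r → Fin m → Bool) (s : Fin r' → Fin m → Bool),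
        wval c t * g ≠ wval c s) := by
  obtain ⟨m₀, h⟩ := exists_letters hC R (ε / 2) (by positivity)
  refine ⟨m₀, fun m hm => ?_⟩
  obtain ⟨c, _, Good, h1, h2⟩ := h m hm
  have hinj : ∀ J J', J ≤ R → J' ≤ R → ∀ i ∈ Good J, ∀ i' ∈ Good J', wval c i = wval c i' →
      (⟨J, i⟩ : Σ J, Fin J → Fin m → Bool) = ⟨J', i'⟩ := by
    intro J J' hJ hJ' i hi i' hi' hv
    refine (h2 J J' hJ hJ' i hi i' hi' false false ?_).1
    simpa [wval] using hv
  -- the element g
  let W := Σ J : Fin (R + 1), (Fin J → Fin m → Bool)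
  have hfin : (Set.range fun q : W × W => (wval c q.1.2)⁻¹ * wval c q.2.2).Finite :=
    Set.finite_range _
  obtain ⟨g, hg⟩ := hfin.exists_notMem
  let T : (r : ℕ) → Finset (Fin r → Fin m → Bool) := fun r =>
    (Good r).filter fun i => ¬ ∃ j ∈ (Good r)ᶜ, wval c i = wval c j
  refine ⟨c, g, T, ?_, ?_, ?_, ?_⟩
  · intro r hr
    have e1 := Finset.card_filter_add_card_filter_not (s := Good r)
      (fun i => ∃ j ∈ (Good r)ᶜ, wval c i = wval c j)
    have e2 : ((Good r).filter fun i => ∃ j ∈ (Good r)ᶜ, wval c i = wval c j).card ≤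
        ((Good r)ᶜ).card := by
      let f : (Fin r → Fin m → Bool) → (Fin r → Fin m → Bool) := fun i =>
        if h : ∃ j ∈ (Good r)ᶜ, wval c i = wval c j then h.choose else i
      refine Finset.card_le_card_of_injOn f ?_ ?_
      · intro i hi
        have hi' := (Finset.mem_filter.1 (Finset.mem_coe.1 hi)).2
        simp only [f, dif_pos hi']
        exact hi'.choose_spec.1
      · intro i hi i' hi' hEq
        have a1 := (Finset.mem_filter.1 (Finset.mem_coe.1 hi))
        have a2 := (Finset.mem_filter.1 (Finset.mem_coe.1 hi'))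
        simp only [f, dif_pos a1.2, dif_pos a2.2] at hEq
        have b1 := a1.2.choose_spec.2
        have b2 := a2.2.choose_spec.2
        rw [hEq, ← b2] at b1
        have := hinj r r hr hr i a1.1 i' a2.1 b1
        simpa using this
    have e3 : (Good r).card + ((Good r)ᶜ).card = 2 ^ (r * m) := by
      rw [Finset.card_add_card_compl, Fintype.card_fun, Fintype.card_fun, Fintype.card_bool,
        Fintype.card_fin, Fintype.card_fin, ← pow_mul, mul_comm m r]
    have e4 : ((Good r).card : ℝ) + (((Good r)ᶜ).card : ℝ) = 2 ^ (r * m) := by exact_mod_cast e3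
    have e5 := h1 r hr
    have e6 : (((Good r).filter fun i => ∃ j ∈ (Good r)ᶜ, wval c i = wval c j).card : ℝ) +
        ((T r).card : ℝ) = ((Good r).card : ℝ) := by exact_mod_cast e1
    have e7 : (((Good r).filter fun i => ∃ j ∈ (Good r)ᶜ, wval c i = wval c j).card : ℝ) ≤
        (((Good r)ᶜ).card : ℝ) := by exact_mod_cast e2
    rw [mul_comm m r]
    nlinarith
  · intro r hr t ht s hst hv
    have a1 := Finset.mem_filter.1 ht
    by_cases hs : s ∈ Good r
    · have := hinj r r hr hr s hs t a1.1 hv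
      exact hst (by simpa using this)
    · exact a1.2 ⟨s, Finset.mem_compl.2 hs, hv.symm⟩
  · intro r r' hr hr' hne t ht s hs hv
    have a1 := Finset.mem_filter.1 ht
    have a2 := Finset.mem_filter.1 hs
    have := hinj r' r hr' hr s a2.1 t a1.1 hv
    exact hne (congrArg Sigma.fst this).symm
  · intro r r' hr hr' t s hv
    apply hg
    refine ⟨(⟨⟨r, by omega⟩, t⟩, ⟨⟨r', by omega⟩, s⟩), ?_⟩
    show (wval c t)⁻¹ * wval c s = g
    rw [← hv, inv_mul_cancel_left]

end Pool.Agent.Rich
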