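import Pool.Agent.Lib.MP_830418_an.Rich.Word

/-!
Problem MP_830418_an.  Rich words, part 3: moving a letter.
-/

open Filter

namespace Pool.Agent.Rich

universe u v

variable {G : Type u} [Group G] {α : Type v} {𝒰 : Ultrafilter G}

/-- the separator pattern: `u` is only in the pass `s`, `v` is in no pass -/
structure Sep (p : ℕ → α → Bool) (r s : ℕ) (u v : α) : Prop where
  lt : s < r
  mem : p s u = true
  nmem : ∀ t, t < r → t ≠ s → p t u = false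
  nmem' : ∀ t, t < r → p t v = false

theorem ps_drop {f : α → Bool} {u v : α} (hu : f u = false) (hv : f v = false)
    (k l : List (α × G)) (y z : G) :
    ps f (k ++ (u, y) :: (v, z) :: l) = ps f (k ++ l) := by
  simp [hu, hv]

theorem tl_drop {p : ℕ → α → Bool} {r s : ℕ} {u v : α}
    (hu : ∀ t, s ≤ t → t < r → p t u = false) (hv : ∀ t, s ≤ t → t < r → p t v = false)
    (k l : List (α × G)) (y z : G) :
    tl p r s (k ++ (u, y) :: (v, z) :: l) = tl p r s (k ++ l) := by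
  unfold tl
  exact run_congr fun t h1 h2 => ps_drop (hu t h1 (by omega)) (hv t h1 (by omega)) _ _ _ _

theorem sep_value {p : ℕ → α → Bool} {r s : ℕ} {u v : α} (h : Sep p r s u v)
    (k l : List (α × G)) (y z : G) :
    vl p r (k ++ (u, y) :: (v, z) :: l) =
      (run (fun t => ps (p t) (k ++ l)) 0 s * ps (p s) k) * y *
        (ps (p s) l * tl p r (s + 1) (k ++ l)) := by
  rw [vl_split p h.lt, tl_drop (fun t h1 h2 => h.nmem t h2 (by omega))
    (fun t _ h2 => h.nmem' t h2)]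
  have h1 : run (fun t => ps (p t) (k ++ (u, y) :: (v, z) :: l)) 0 s =
      run (fun t => ps (p t) (k ++ l)) 0 s := by
    refine run_congr fun t _ h2 => ps_drop (h.nmem t ?_ ?_) (h.nmem' t ?_) _ _ _ _
    · have := h.lt; omega
    · omega
    · have := h.lt; omega
  have h2 : ps (p s) (k ++ (u, y) :: (v, z) :: l) = ps (p s) k * y * ps (p s) l := by
    simp [h.mem, h.nmem' s h.lt, mul_assoc]
  rw [h1, h2]
  simp only [mul_assoc]

/-- The value ratio for two choices of the letter `w` does not depend on the letters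
`u`, `v`. -/
theorem ratio {p : ℕ → α → Bool} {r t₀ : ℕ} {w u v : α}
    (hw : ∀ t, t < r → t ≠ t₀ → p t w = false)
    (hu : ∀ t, t < t₀ → t < r → p t u = false) (hv : ∀ t, t < t₀ → t < r → p t v = false)
    (l₁ l₂ l₃ : List (α × G)) (a a' y z y' z' : G) :
    vl p r (l₁ ++ (w, a) :: (l₂ ++ (u, y) :: (v, z) :: l₃)) *
        (vl p r (l₁ ++ (w, a') :: (l₂ ++ (u, y) :: (v, z) :: l₃)))⁻¹ =
      vl p r (l₁ ++ (w, a) :: (l₂ ++ (u, y') :: (v, z') :: l₃)) *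
        (vl p r (l₁ ++ (w, a') :: (l₂ ++ (u, y') :: (v, z') :: l₃)))⁻¹ := by
  by_cases ht : t₀ < r
  · have key : ∀ a y z, vl p r (l₁ ++ (w, a) :: (l₂ ++ (u, y) :: (v, z) :: l₃)) =
        (run (fun t => ps (p t) (l₁ ++ (l₂ ++ l₃))) 0 t₀ * ps (p t₀) l₁) *
          (if p t₀ w = true then a else 1) *
          (ps (p t₀) (l₂ ++ (u, y) :: (v, z) :: l₃) *
            tl p r (t₀ + 1) (l₁ ++ (l₂ ++ (u, y) :: (v, z) :: l₃))) := by
      intro a y z
      rw [vl_split p ht]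
      have h1 : run (fun t => ps (p t) (l₁ ++ (w, a) :: (l₂ ++ (u, y) :: (v, z) :: l₃))) 0 t₀ =
          run (fun t => ps (p t) (l₁ ++ (l₂ ++ l₃))) 0 t₀ := by
        refine run_congr fun t _ h2 => ?_
        have e1 := hw t (by omega) (by omega)
        have e2 := hu t (by omega) (by omega)
        have e3 := hv t (by omega) (by omega)
        simp [e1, e2, e3]
      have h2 : tl p r (t₀ + 1) (l₁ ++ (w, a) :: (l₂ ++ (u, y) :: (v, z) :: l₃)) =
          tl p r (t₀ + 1) (l₁ ++ (l₂ ++ (u, y) :: (v, z) :: l₃)) := by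
        unfold tl
        refine run_congr fun t h3 h4 => ?_
        have e1 := hw t (by omega) (by omega)
        simp [e1]
      rw [h1, h2]
      simp only [ps_append, ps_cons, mul_assoc]
    rw [key, key, key, key]
    group
  · have key : ∀ a a' y z, vl p r (l₁ ++ (w, a) :: (l₂ ++ (u, y) :: (v, z) :: l₃)) =
        vl p r (l₁ ++ (w, a') :: (l₂ ++ (u, y) :: (v, z) :: l₃)) := by
      intro a a' y z
      unfold vl
      refine run_congr fun t _ h2 => ?_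
      have e1 := hw t (by omega) (by omega)
      simp [e1]
    rw [key a a', key a a', mul_inv_cancel, mul_inv_cancel]

/-- Moving a letter `x` from `u` to `v`: the product of the passes after `s` does not depend on
the letter `w`. -/
theorem move (hI : Idem 𝒰) (hC : FinCent G) {p p' : ℕ → α → Bool} {r r' s t₀ : ℕ}
    {us₁ us₂ us₃ : List α} {w u v : α} (hsep : Sep p' r' s u v)
    (hw : ∀ t, t < r → t ≠ t₀ → p t w = false)
    (hu : ∀ t, t < t₀ → t < r → p t u = false) (hv : ∀ t, t < t₀ → t < r → p t v = false)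
    (hR : AE 𝒰 (us₁ ++ w :: (us₂ ++ u :: v :: us₃)) (fun xs => vl p r xs = vl p' r' xs)) :
    AE 𝒰 us₁ (fun l₁ => ∀ᶠ a in (𝒰 : Filter G), ∀ᶠ a' in (𝒰 : Filter G),
      AE 𝒰 (us₂ ++ u :: v :: us₃) (fun l => tl p' r' (s + 1) (l₁ ++ (w, a) :: l) =
        tl p' r' (s + 1) (l₁ ++ (w, a') :: l))) := by
  rw [AE.append] at hR
  refine hR.mono fun l₁ h₁ => ?_
  have h₁' : ∀ᶠ a in (𝒰 : Filter G), AE 𝒰 (us₂ ++ u :: v :: us₃)
      (fun l => vl p r (l₁ ++ (w, a) :: l) = vl p' r' (l₁ ++ (w, a) :: l)) := h₁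
  filter_upwards [h₁'] with a ha
  filter_upwards [h₁'] with a' ha'
  rw [AE.append] at ha ha' ⊢
  refine (ha.and ha').mono fun l₂ h₂ => ?_
  obtain ⟨h₂, h₂'⟩ := h₂
  -- both values of the letter `w` together
  let Q : G → G → Prop := fun y z => AE 𝒰 us₃ (fun l₃ =>
    (vl p r (l₁ ++ (w, a) :: (l₂ ++ (u, y) :: (v, z) :: l₃)) =
        vl p' r' (l₁ ++ (w, a) :: (l₂ ++ (u, y) :: (v, z) :: l₃))) ∧
      (vl p r (l₁ ++ (w, a') :: (l₂ ++ (u, y) :: (v, z) :: l₃)) =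
        vl p' r' (l₁ ++ (w, a') :: (l₂ ++ (u, y) :: (v, z) :: l₃))))
  have hQ : ∀ᶠ y in (𝒰 : Filter G), ∀ᶠ z in (𝒰 : Filter G), Q y z := by
    have e1 : ∀ᶠ y in (𝒰 : Filter G), ∀ᶠ z in (𝒰 : Filter G), AE 𝒰 us₃ (fun l₃ =>
      (vl p r (l₁ ++ (w, a) :: (l₂ ++ (u, y) :: (v, z) :: l₃)) =
        vl p' r' (l₁ ++ (w, a) :: (l₂ ++ (u, y) :: (v, z) :: l₃)))) := h₂
    have e2 : ∀ᶠ y in (𝒰 : Filter G), ∀ᶠ z in (𝒰 : Filter G), AE 𝒰 us₃ (fun l₃ =>
      (vl p r (l₁ ++ (w, a') :: (l₂ ++ (u, y) :: (v, z) :: l₃)) =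
        vl p' r' (l₁ ++ (w, a') :: (l₂ ++ (u, y) :: (v, z) :: l₃)))) := h₂'
    filter_upwards [e1, e2] with y hy hy'
    filter_upwards [hy, hy'] with z hz hz'
    exact hz.and hz'
  have hA : ∀ᶠ y in (𝒰 : Filter G), ∀ᶠ x in (𝒰 : Filter G), ∀ᶠ z in (𝒰 : Filter G),
      Q (y * x) z := (hI.idem _).1 hQ
  have hB : ∀ᶠ y in (𝒰 : Filter G), ∀ᶠ x in (𝒰 : Filter G), ∀ᶠ z in (𝒰 : Filter G),
      Q y (x * z) := hQ.mono fun y hy => (hI.idem _).1 hy
  show ∀ᶠ y in (𝒰 : Filter G), ∀ᶠ z in (𝒰 : Filter G), AE 𝒰 us₃ (fun l₃ =>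
    tl p' r' (s + 1) (l₁ ++ (w, a) :: (l₂ ++ (u, y) :: (v, z) :: l₃)) =
      tl p' r' (s + 1) (l₁ ++ (w, a') :: (l₂ ++ (u, y) :: (v, z) :: l₃)))
  filter_upwards [hA, hB] with y hyA hyB
  have hM := hyA.and hyB
  obtain ⟨x, ⟨hx1, hx2⟩, hgx⟩ := (hM.and (hI.gen2 hC)).exists
  obtain ⟨x', ⟨hx1', hx2'⟩, hgen⟩ := (hM.and hgx).exists
  filter_upwards [hx1, hx2, hx1', hx2'] with z q1 q2 q3 q4
  refine ((q1.and q2).and (q3.and q4)).mono fun l₃ hq => ?_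
  obtain ⟨⟨⟨r1, r1'⟩, ⟨r2, r2'⟩⟩, ⟨⟨r3, r3'⟩, ⟨r4, r4'⟩⟩⟩ := hq
  -- value of the second word
  have val : ∀ b y z, vl p' r' (l₁ ++ (w, b) :: (l₂ ++ (u, y) :: (v, z) :: l₃)) =
      (run (fun t => ps (p' t) ((l₁ ++ (w, b) :: l₂) ++ l₃)) 0 s *
        ps (p' s) (l₁ ++ (w, b) :: l₂)) * y *
        (ps (p' s) l₃ * tl p' r' (s + 1) ((l₁ ++ (w, b) :: l₂) ++ l₃)) := by
    intro b y z
    have := sep_value hsep (l₁ ++ (w, b) :: l₂) l₃ y z
    rw [← this]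
    simp
  have tldrop : ∀ b y z, tl p' r' (s + 1) (l₁ ++ (w, b) :: (l₂ ++ (u, y) :: (v, z) :: l₃)) =
      tl p' r' (s + 1) ((l₁ ++ (w, b) :: l₂) ++ l₃) := by
    intro b y z
    have := tl_drop (p := p') (r := r') (s := s + 1) (u := u) (v := v)
      (fun t h1 h2 => hsep.nmem t h2 (by omega)) (fun t _ h2 => hsep.nmem' t h2)
      (l₁ ++ (w, b) :: l₂) l₃ y z
    rw [← this]
    simp
  set A := run (fun t => ps (p' t) ((l₁ ++ (w, a) :: l₂) ++ l₃)) 0 s *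
        ps (p' s) (l₁ ++ (w, a) :: l₂) with hAdef
  set A' := run (fun t => ps (p' t) ((l₁ ++ (w, a') :: l₂) ++ l₃)) 0 s *
        ps (p' s) (l₁ ++ (w, a') :: l₂) with hAdef'
  set T := tl p' r' (s + 1) ((l₁ ++ (w, a) :: l₂) ++ l₃) with hT
  set T' := tl p' r' (s + 1) ((l₁ ++ (w, a') :: l₂) ++ l₃) with hT'
  have hcomm : ∀ x, vl p r (l₁ ++ (w, a) :: (l₂ ++ (u, y * x) :: (v, z) :: l₃)) =
        vl p' r' (l₁ ++ (w, a) :: (l₂ ++ (u, y * x) :: (v, z) :: l₃)) →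
      vl p r (l₁ ++ (w, a') :: (l₂ ++ (u, y * x) :: (v, z) :: l₃)) =
        vl p' r' (l₁ ++ (w, a') :: (l₂ ++ (u, y * x) :: (v, z) :: l₃)) →
      vl p r (l₁ ++ (w, a) :: (l₂ ++ (u, y) :: (v, x * z) :: l₃)) =
        vl p' r' (l₁ ++ (w, a) :: (l₂ ++ (u, y) :: (v, x * z) :: l₃)) →
      vl p r (l₁ ++ (w, a') :: (l₂ ++ (u, y) :: (v, x * z) :: l₃)) =
        vl p' r' (l₁ ++ (w, a') :: (l₂ ++ (u, y) :: (v, x * z) :: l₃)) →
      Commute ((ps (p' s) l₃ * T) * (ps (p' s) l₃ * T')⁻¹) x := by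
    intro x c1 c2 c3 c4
    have hr := ratio hw hu hv l₁ l₂ l₃ a a' (y * x) z y (x * z)
    rw [c1, c2, c3, c4, val, val, val, val, ← hAdef, ← hAdef', ← hT, ← hT'] at hr
    generalize ps (p' s) l₃ * T = B at hr ⊢
    generalize ps (p' s) l₃ * T' = B' at hr ⊢
    have hr' : x * (B * B'⁻¹) * x⁻¹ = B * B'⁻¹ := by
      have h5 : (A * y)⁻¹ * (A * (y * x) * B * (A' * (y * x) * B')⁻¹) * (A' * y) =
          (A * y)⁻¹ * (A * y * B * (A' * y * B')⁻¹) * (A' * y) := by rw [hr]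
      have h6 : (A * y)⁻¹ * (A * (y * x) * B * (A' * (y * x) * B')⁻¹) * (A' * y) =
          x * (B * B'⁻¹) * x⁻¹ := by group
      have h7 : (A * y)⁻¹ * (A * y * B * (A' * y * B')⁻¹) * (A' * y) = B * B'⁻¹ := by group
      rw [h6, h7] at h5
      exact h5
    show (B * B'⁻¹) * x = x * (B * B'⁻¹)
    exact (mul_inv_eq_iff_eq_mul.1 hr').symm
  have hZ := hgen _ (hcomm x r1 r1' r2 r2') (hcomm x' r3 r3' r4 r4')
  rw [tldrop, tldrop, ← hT, ← hT']
  rw [mul_inv_eq_one] at hZ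
  exact mul_left_cancel hZ

end Pool.Agent.Rich
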