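import Mathlib

/-!
Problem MP_830418_an.  Rich words, part 1: a nonprincipal idempotent ultrafilter on an infinite
group, and the iterated quantifier `AE` along it.
-/

open Filter

namespace Pool.Agent.Rich

universe u v

/-- The ultrafilter is nonprincipal and idempotent. -/
structure Idem {G : Type u} [Group G] (𝒰 : Ultrafilter G) : Prop where
  nonprin : ∀ a : G, ∀ᶠ x in (𝒰 : Filter G), x ≠ a
  idem : ∀ P : G → Prop, (∀ᶠ x in (𝒰 : Filter G), P x) ↔
    ∀ᶠ a in (𝒰 : Filter G), ∀ᶠ x in (𝒰 : Filter G), P (a * x)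

theorem exists_idem (G : Type u) [Group G] [Infinite G] : ∃ 𝒰 : Ultrafilter G, Idem 𝒰 := by
  letI := Ultrafilter.semigroup (M := G)
  let S : Set (Ultrafilter G) := {U | ∀ a : G, ({a}ᶜ : Set G) ∈ U}
  have hclosed : IsClosed S := by
    have : S = ⋂ a : G, {U : Ultrafilter G | ({a}ᶜ : Set G) ∈ U} := by
      ext U; simp [S]
    rw [this]
    exact isClosed_iInter fun a => ultrafilter_isClosed_basic _
  have hne : S.Nonempty := by
    refine ⟨hyperfilter G, fun a => ?_⟩
    exact (Set.finite_singleton a).compl_mem_hyperfilter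
  have hmul : ∀ x ∈ S, ∀ y ∈ S, x * y ∈ S := by
    intro U _ V hV a
    have : ∀ᶠ m in ((U * V : Ultrafilter G) : Filter G), m ∈ ({a}ᶜ : Set G) := by
      rw [Ultrafilter.eventually_mul]
      refine Eventually.of_forall fun m => ?_
      have h := hV (m⁻¹ * a)
      filter_upwards [h] with m' hm' hc
      apply hm'
      simp only [Set.mem_singleton_iff] at hc ⊢
      rw [← hc, inv_mul_cancel_left]
    exact this
  obtain ⟨U, hU, hUU⟩ := exists_idempotent_in_compact_subsemigroup
    (fun V => Ultrafilter.continuous_mul_left V) S hne hclosed.isCompact hmul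
  refine ⟨U, ⟨fun a => hU a, fun P => ?_⟩⟩
  have h := Ultrafilter.eventually_mul U U P
  rw [hUU] at h
  exact h

variable {G : Type u} [Group G] {α : Type v}

/-- `P` holds for almost all choices of letters, the labels being given. -/
def AE (𝒰 : Ultrafilter G) : List α → (List (α × G) → Prop) → Prop
  | [], P => P []
  | u :: us, P => ∀ᶠ x in (𝒰 : Filter G), AE 𝒰 us (fun l => P ((u, x) :: l))

variable {𝒰 : Ultrafilter G}

theorem AE.mono {us : List α} {P Q : List (α × G) → Prop} (h : AE 𝒰 us P)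
    (hPQ : ∀ l, P l → Q l) : AE 𝒰 us Q := by
  induction us generalizing P Q with
  | nil => exact hPQ _ h
  | cons u us ih =>
    refine Filter.Eventually.mono h fun x hx => ?_
    exact ih hx fun l hl => hPQ _ hl

theorem AE.and {us : List α} {P Q : List (α × G) → Prop} (h : AE 𝒰 us P)
    (h' : AE 𝒰 us Q) : AE 𝒰 us (fun l => P l ∧ Q l) := by
  induction us generalizing P Q with
  | nil => exact ⟨h, h'⟩
  | cons u us ih =>
    have h1 : ∀ᶠ x in (𝒰 : Filter G), AE 𝒰 us (fun l => P ((u, x) :: l)) := h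
    have h2 : ∀ᶠ x in (𝒰 : Filter G), AE 𝒰 us (fun l => Q ((u, x) :: l)) := h'
    filter_upwards [h1, h2] with x hx hx'
    exact ih hx hx'

theorem AE.of_forall {us : List α} {P : List (α × G) → Prop} (h : ∀ l, P l) : AE 𝒰 us P := by
  induction us generalizing P with
  | nil => exact h _
  | cons u us ih => exact Filter.Eventually.of_forall fun x => ih fun l => h _

theorem AE.const {us : List α} {p : Prop} (h : AE 𝒰 us (fun _ => p)) : p := by
  induction us with
  | nil => exact h
  | cons u us ih =>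
    have h1 : ∀ᶠ x in (𝒰 : Filter G), AE 𝒰 us (fun _ : List (α × G) => p) := h
    obtain ⟨x, hx⟩ := h1.exists
    exact ih hx

theorem AE.append {us vs : List α} {P : List (α × G) → Prop} :
    AE 𝒰 (us ++ vs) P ↔ AE 𝒰 us (fun l => AE 𝒰 vs (fun l' => P (l ++ l'))) := by
  induction us generalizing P with
  | nil => exact Iff.rfl
  | cons u us ih =>
    refine Filter.eventually_congr (Filter.Eventually.of_forall fun x => ?_)
    exact ih

theorem AE.cons {u : α} {us : List α} {P : List (α × G) → Prop} :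
    AE 𝒰 (u :: us) P ↔ ∀ᶠ x in (𝒰 : Filter G), AE 𝒰 us (fun l => P ((u, x) :: l)) := Iff.rfl

theorem AE.exists {us : List α} {P : List (α × G) → Prop} (h : AE 𝒰 us P) :
    ∃ l, l.map Prod.fst = us ∧ P l := by
  induction us generalizing P with
  | nil => exact ⟨[], rfl, h⟩
  | cons u us ih =>
    have h1 : ∀ᶠ x in (𝒰 : Filter G), AE 𝒰 us (fun l => P ((u, x) :: l)) := h
    obtain ⟨x, hx⟩ := h1.exists
    obtain ⟨l, hl, hP⟩ := ih hx
    exact ⟨(u, x) :: l, by simp [hl], hP⟩

theorem AE.all {ι : Type*} [Finite ι] {us : List α} {P : ι → List (α × G) → Prop}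
    (h : ∀ i, AE 𝒰 us (P i)) : AE 𝒰 us (fun l => ∀ i, P i l) := by
  induction us generalizing P with
  | nil => exact h
  | cons u us ih =>
    have h1 : ∀ i, ∀ᶠ x in (𝒰 : Filter G), AE 𝒰 us (fun l => P i ((u, x) :: l)) := h
    have h2 := Filter.eventually_all.2 h1
    exact h2.mono fun x hx => ih hx

/-- dropping a dummy letter inside -/
theorem ev_const {p : Prop} (h : ∀ᶠ _x in (𝒰 : Filter G), p) : p := by
  obtain ⟨_, hx⟩ := h.exists
  exact hx

/-- Every element different from 1 has a finite centraliser. -/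
def FinCent (G : Type u) [Group G] : Prop := ∀ g : G, g ≠ 1 → {x : G | Commute g x}.Finite

/-- finite sets are avoided -/
theorem Idem.avoid (h : Idem 𝒰) {s : Set G} (hs : s.Finite) :
    ∀ᶠ x in (𝒰 : Filter G), x ∉ s := by
  induction s, hs using Set.Finite.induction_on with
  | empty => exact Filter.Eventually.of_forall fun x => by simp
  | insert _ _ ih =>
    rename_i a s _ _
    filter_upwards [h.nonprin a, ih] with x h1 h2
    simp [h1, h2]

/-- two generic elements have no common nontrivial centraliser -/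
theorem Idem.gen (h : Idem 𝒰) (hC : FinCent G) (x : G) (hx : x ≠ 1) :
    ∀ᶠ y in (𝒰 : Filter G), ∀ g : G, Commute g x → Commute g y → g = 1 := by
  have h1 : ∀ᶠ y in (𝒰 : Filter G),
      y ∉ ⋃ g ∈ {g : G | Commute x g} ∩ {g | g ≠ 1}, {z : G | Commute g z} := by
    apply h.avoid
    apply Set.Finite.biUnion
    · exact (hC x hx).inter_of_left _
    · intro g hg
      exact hC g hg.2
  filter_upwards [h1] with y hy g hgx hgy
  by_contra hg
  apply hy
  simp only [Set.mem_iUnion]
  exact ⟨g, ⟨hgx.symm, hg⟩, hgy⟩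

theorem Idem.gen2 (h : Idem 𝒰) (hC : FinCent G) :
    ∀ᶠ x in (𝒰 : Filter G), ∀ᶠ y in (𝒰 : Filter G),
      ∀ g : G, Commute g x → Commute g y → g = 1 := by
  filter_upwards [h.nonprin 1] with x hx
  exact h.gen hC x hx

/-- for generic `a, b, c`: only 1 commutes with `a b⁻¹` and `a c⁻¹` -/
theorem Idem.gen3 (h : Idem 𝒰) (hC : FinCent G) :
    ∀ᶠ a in (𝒰 : Filter G), ∀ᶠ b in (𝒰 : Filter G), ∀ᶠ c in (𝒰 : Filter G),
      ∀ g : G, Commute g (a * b⁻¹) → Commute g (a * c⁻¹) → g = 1 := by
  refine Filter.Eventually.of_forall fun a => ?_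
  filter_upwards [h.nonprin a] with b hb
  have hne : a * b⁻¹ ≠ 1 := by
    intro hh
    exact hb (mul_inv_eq_one.1 hh).symm
  have h1 : ∀ᶠ c in (𝒰 : Filter G),
      c ∉ ⋃ g ∈ {g : G | Commute (a * b⁻¹) g} ∩ {g | g ≠ 1}, {z : G | Commute g (a * z⁻¹)} := by
    apply h.avoid
    apply Set.Finite.biUnion
    · exact (hC _ hne).inter_of_left _
    · intro g hg
      refine ((hC g hg.2).preimage (f := fun z => a * z⁻¹) ?_)
      intro z _ z' _ hzz
      have := mul_left_cancel hzz
      exact inv_injective this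
  filter_upwards [h1] with c hc g hgx hgy
  by_contra hg
  apply hc
  simp only [Set.mem_iUnion]
  exact ⟨g, ⟨hgx.symm, hg⟩, hgy⟩

/-- same with `a⁻¹ b` -/
theorem Idem.gen3' (h : Idem 𝒰) (hC : FinCent G) :
    ∀ᶠ a in (𝒰 : Filter G), ∀ᶠ b in (𝒰 : Filter G), ∀ᶠ c in (𝒰 : Filter G),
      ∀ g : G, Commute g (a⁻¹ * b) → Commute g (a⁻¹ * c) → g = 1 := by
  refine Filter.Eventually.of_forall fun a => ?_
  filter_upwards [h.nonprin a] with b hb
  have hne : a⁻¹ * b ≠ 1 := by
    intro hh
    exact hb (inv_mul_eq_one.1 hh).symm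
  have h1 : ∀ᶠ c in (𝒰 : Filter G),
      c ∉ ⋃ g ∈ {g : G | Commute (a⁻¹ * b) g} ∩ {g | g ≠ 1}, {z : G | Commute g (a⁻¹ * z)} := by
    apply h.avoid
    apply Set.Finite.biUnion
    · exact (hC _ hne).inter_of_left _
    · intro g hg
      refine ((hC g hg.2).preimage (f := fun z => a⁻¹ * z) ?_)
      intro z _ z' _ hzz
      exact mul_left_cancel hzz
  filter_upwards [h1] with c hc g hgx hgy
  by_contra hg
  apply hc
  simp only [Set.mem_iUnion]
  exact ⟨g, ⟨hgx.symm, hg⟩, hgy⟩

end Pool.Agent.Rich
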