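import Pool.Agent.Lib.MP_830418_an.Rich.Steps

/-!
Problem MP_830418_an.  Rich words, part 5: two rich words with generically equal values are
equal.
-/

open Filter

namespace Pool.Agent.Rich

universe u v

variable {G : Type u} [Group G] {α : Type v} {𝒰 : Ultrafilter G}

/-- `n` stages, each consisting of two lists in which all separator patterns of both words
occur -/
def Stg (p p' : ℕ → α → Bool) (r r' : ℕ) : ℕ → List α → Prop
  | 0, _ => True
  | n + 1, A => ∃ A' D₁ D₂ Z, A = A' ++ (D₁ ++ (D₂ ++ Z)) ∧ HasE p r D₁ ∧ HasE p' r' D₁ ∧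
      HasE p r D₂ ∧ HasE p' r' D₂ ∧ Stg p p' r r' n A'

theorem Stg.append {p p' : ℕ → α → Bool} {r r' n : ℕ} {A : List α}
    (h : Stg p p' r r' n A) (X : List α) : Stg p p' r r' n (A ++ X) := by
  cases n with
  | zero => trivial
  | succ n =>
    obtain ⟨A', D₁, D₂, Z, hA, h1, h2, h3, h4, h5⟩ := h
    exact ⟨A', D₁, D₂, Z ++ X, by simp [hA], h1, h2, h3, h4, h5⟩

theorem HasE.append {p : ℕ → α → Bool} {r : ℕ} {D : List α} (h : HasE p r D)
    (X Y : List α) : HasE p r (X ++ (D ++ Y)) := by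
  intro s hs
  obtain ⟨k₁, u, v, k₃, hk, h⟩ := h s hs
  exact ⟨X ++ k₁, u, v, k₃ ++ Y, by simp [hk], h⟩

theorem iter (hI : Idem 𝒰) (hC : FinCent G) {p p' : ℕ → α → Bool} {r r' : ℕ} {us : List α}
    (hR : AE 𝒰 us (fun xs => vl p r xs = vl p' r' xs)) {n : ℕ} (hs : Stg p p' r r' (r + n) us)
    (k : ℕ) (hk : k ≤ r) :
    k ≤ r' ∧ ∃ A B, us = A ++ B ∧ St 𝒰 p p' k A B ∧ Stg p p' r r' (r + n - k) A := by
  induction k with
  | zero => exact ⟨Nat.zero_le _, us, [], by simp, St.zero, hs⟩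
  | succ k ih =>
    obtain ⟨_, A, B, hAB, hSt, hStg⟩ := ih (by omega)
    rw [show r + n - k = (r + n - (k + 1)) + 1 by omega] at hStg
    obtain ⟨A', D₁, D₂, Z, hA, h1, h2, h3, h4, h5⟩ := hStg
    obtain ⟨k₁, w, v, k₃, hD, hsep⟩ := h1 k (by omega)
    have hA1 : A = (A' ++ k₁) ++ w :: (v :: k₃ ++ (D₂ ++ Z)) := by
      rw [hA, hD]; simp
    have hus : us = (A' ++ k₁) ++ w :: ((v :: k₃ ++ (D₂ ++ Z)) ++ B) := by
      rw [hAB, hA1]; simp
    have hR1 : AE 𝒰 ((A' ++ k₁) ++ w :: ((v :: k₃ ++ (D₂ ++ Z)) ++ B))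
        (fun xs => vl p r xs = vl p' r' xs) := by rw [← hus]; exact hR
    have hSt1 : St 𝒰 p p' k ((A' ++ k₁) ++ w :: (v :: k₃ ++ (D₂ ++ Z))) B := by
      rw [← hA1]; exact hSt
    obtain ⟨h6, h7⟩ := step hI hC hR1 (by omega) hsep.mem
      (fun s hs1 hs2 => hsep.nmem s hs1 hs2) (h3.append (v :: k₃) Z) (h4.append (v :: k₃) Z)
      hSt1
    exact ⟨h6, A' ++ k₁, w :: ((v :: k₃ ++ (D₂ ++ Z)) ++ B), hus, h7, h5.append k₁⟩

/-- MAIN THEOREM on rich words: if two words which are rich (in stages) have generically the same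
value then they are equal. -/
theorem rich_inj (hI : Idem 𝒰) (hC : FinCent G) {p p' : ℕ → α → Bool} {r r' : ℕ} {us : List α}
    (hR : AE 𝒰 us (fun xs => vl p r xs = vl p' r' xs)) (hs : Stg p p' r r' (r + 1) us) :
    r = r' ∧ ∀ u ∈ us, ∀ s, s < r → p s u = p' s u := by
  obtain ⟨hrr, A, B, hAB, hSt, hStg⟩ := iter hI hC hR (n := 1) hs r le_rfl
  rw [show r + 1 - r = 0 + 1 by omega] at hStg
  obtain ⟨A', D₁, D₂, Z, hA, h1, h2, h3, h4, h5⟩ := hStg
  have hr : r = r' := by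
    by_contra hne
    have hlt : r < r' := lt_of_le_of_ne hrr hne
    obtain ⟨k₁, w, v, k₃, hD, hsep⟩ := h2 r hlt
    have hA1 : A = (A' ++ k₁) ++ w :: (v :: k₃ ++ (D₂ ++ Z)) := by
      rw [hA, hD]; simp
    have hus : us = (A' ++ k₁) ++ w :: ((v :: k₃ ++ (D₂ ++ Z)) ++ B) := by
      rw [hAB, hA1]; simp
    have hw : ∀ s, s < r → p s w = false := by
      intro s hs
      rw [hSt.agree w (by rw [hA1]; simp) s hs]
      exact hsep.nmem s (by omega) (by omega)
    have hsepD : HasE p' r' ((v :: k₃ ++ (D₂ ++ Z)) ++ B) := by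
      have := h4.append (v :: k₃) (Z ++ B)
      simpa using this
    have hR1 : AE 𝒰 ((A' ++ k₁) ++ w :: ((v :: k₃ ++ (D₂ ++ Z)) ++ B))
        (fun xs => vl p r xs = vl p' r' xs) := by rw [← hus]; exact hR
    have h6 := absent hI hC hw hsepD hR1 r hlt
    rw [hsep.mem] at h6
    exact absurd h6 (by simp)
  subst hr
  refine ⟨rfl, ?_⟩
  have hlast : 0 < r → ∀ u ∈ B, p (r - 1) u = p' (r - 1) u := by
    intro hr0
    have hR2 : AE 𝒰 A (fun lA => AE 𝒰 B (fun lB => vl p r (lA ++ lB) = vl p' r (lA ++ lB))) := by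
      rw [hAB] at hR
      exact AE.append.1 hR
    have h7 : AE 𝒰 A (fun _ => ∀ u ∈ B, p (r - 1) u = p' (r - 1) u) := by
      refine (hR2.and hSt.pref).mono fun lA h => ?_
      refine (cmp hI hC (𝒰 := 𝒰) (h := 1) (h' := 1) ((h.1.and h.2).mono fun lB hl => ?_)).1
      obtain ⟨e1, e2⟩ := hl
      unfold vl at e1
      rw [e1] at e2
      have e3 := mul_left_cancel e2
      rw [inv_inj] at e3
      rw [e3]
    exact h7.const
  intro u hu s hs
  rw [hAB] at hu
  rcases List.mem_append.1 hu with h | h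
  · exact hSt.agree u h s hs
  · rcases Nat.lt_or_ge (s + 1) r with h' | h'
    · exact hSt.full u h s h'
    · have : s = r - 1 := by omega
      rw [this]; exact hlast (by omega) u h

end Pool.Agent.Rich
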