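import Pool.Agent.Lib.MP_830418_an.Rich.Core

/-!
Problem MP_830418_an.  Rich words, part 4: the induction over the passes.
-/

open Filter

namespace Pool.Agent.Rich

universe u v

variable {G : Type u} [Group G] {α : Type v} {𝒰 : Ultrafilter G}

/-- every separator pattern occurs in the list `D` -/
def HasE (p : ℕ → α → Bool) (r : ℕ) (D : List α) : Prop :=
  ∀ s, s < r → ∃ k₁ u v k₃, D = k₁ ++ u :: v :: k₃ ∧ Sep p r s u v

/-- the product of the passes from `s` on does not depend on the letter `w` -/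
def TT (𝒰 : Ultrafilter G) (us₁ : List α) (w : α) (us₂ : List α) (p' : ℕ → α → Bool)
    (r' s : ℕ) : Prop :=
  AE 𝒰 us₁ (fun l₁ => ∀ᶠ a in (𝒰 : Filter G), ∀ᶠ a' in (𝒰 : Filter G),
      AE 𝒰 us₂ (fun l => tl p' r' s (l₁ ++ (w, a) :: l) = tl p' r' s (l₁ ++ (w, a') :: l)))

theorem TT.last {us₁ : List α} {w : α} {us₂ : List α} {p' : ℕ → α → Bool} {r' : ℕ} :
    TT 𝒰 us₁ w us₂ p' r' r' := by
  refine AE.of_forall fun l₁ => Eventually.of_forall fun a => Eventually.of_forall fun a' =>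
    AE.of_forall fun l => ?_
  rw [tl_last, tl_last]

theorem pass_absent (hI : Idem 𝒰) {us₁ : List α} {w : α} {us₂ : List α} {p' : ℕ → α → Bool}
    {r' t : ℕ} (ht : t < r') (h1 : TT 𝒰 us₁ w us₂ p' r' t)
    (h2 : TT 𝒰 us₁ w us₂ p' r' (t + 1)) : p' t w = false := by
  by_contra hne
  have hw : p' t w = true := by simpa using hne
  have h3 := h1.and h2
  have h4 : AE 𝒰 us₁ (fun _ => False) := by
    refine h3.mono fun l₁ h => ?_
    obtain ⟨ha, hb⟩ := h
    obtain ⟨a, ha, hb⟩ := (ha.and hb).exists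
    obtain ⟨a', ⟨ha', hb'⟩, hne⟩ := ((ha.and hb).and (hI.nonprin a)).exists
    have h5 : AE 𝒰 us₂ (fun _ : List (α × G) => False) := by
      refine (ha'.and hb').mono fun l hl => ?_
      obtain ⟨e1, e2⟩ := hl
      rw [tl_cut p' ht, tl_cut p' ht, e2] at e1
      have e3 := mul_right_cancel e1
      simp only [ps_append, ps_cons, hw, if_true] at e3
      have e4 := mul_left_cancel e3
      have e5 := mul_right_cancel e4
      exact hne e5.symm
    exact h5.const
  exact h4.const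

theorem TT_zero {us₁ : List α} {w : α} {us₂ : List α} {p p' : ℕ → α → Bool} {r r' : ℕ}
    (hw : ∀ t, t < r → p t w = false)
    (hR : AE 𝒰 (us₁ ++ w :: us₂) (fun xs => vl p r xs = vl p' r' xs)) :
    TT 𝒰 us₁ w us₂ p' r' 0 := by
  rw [AE.append] at hR
  refine hR.mono fun l₁ h₁ => ?_
  have h₁' : ∀ᶠ a in (𝒰 : Filter G), AE 𝒰 us₂
      (fun l => vl p r (l₁ ++ (w, a) :: l) = vl p' r' (l₁ ++ (w, a) :: l)) := h₁
  filter_upwards [h₁'] with a ha
  filter_upwards [h₁'] with a' ha'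
  refine (ha.and ha').mono fun l hl => ?_
  obtain ⟨e1, e2⟩ := hl
  rw [← vl_eq_tl, ← vl_eq_tl, ← e1, ← e2]
  unfold vl
  refine run_congr fun t _ ht => ?_
  have := hw t (by omega)
  simp [this]

/-- a letter absent in the first word is absent in the second word -/
theorem absent (hI : Idem 𝒰) (hC : FinCent G) {us₁ : List α} {w : α} {us₂ : List α}
    {p p' : ℕ → α → Bool} {r r' : ℕ} (hw : ∀ t, t < r → p t w = false)
    (hsep : HasE p' r' us₂)
    (hR : AE 𝒰 (us₁ ++ w :: us₂) (fun xs => vl p r xs = vl p' r' xs)) :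
    ∀ t, t < r' → p' t w = false := by
  have hS : ∀ s, s < r' → TT 𝒰 us₁ w us₂ p' r' (s + 1) := by
    intro s hs
    obtain ⟨k₁, u, v, k₃, hk, hsv⟩ := hsep s hs
    subst hk
    exact move hI hC (t₀ := 0) hsv (fun t ht _ => hw t ht) (fun t ht => absurd ht (by omega))
      (fun t ht => absurd ht (by omega)) hR
  intro t ht
  refine pass_absent hI ht ?_ (hS t ht)
  rcases Nat.eq_zero_or_pos t with h0 | h0
  · rw [h0]; exact TT_zero hw hR
  · have := hS (t - 1) (by omega)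
    rwa [show t - 1 + 1 = t by omega] at this

/-- a letter which is only in the pass `t₀` of the first word is in no later pass of the
second -/
theorem after (hI : Idem 𝒰) (hC : FinCent G) {us₁ : List α} {w : α} {us₂ : List α}
    {p p' : ℕ → α → Bool} {r r' t₀ : ℕ} (hw : ∀ t, t < r → t ≠ t₀ → p t w = false)
    (hsep : ∀ s, t₀ ≤ s → s < r' → ∃ k₁ u v k₃, us₂ = k₁ ++ u :: v :: k₃ ∧ Sep p' r' s u v ∧
      (∀ t, t < t₀ → p t u = false) ∧ (∀ t, t < t₀ → p t v = false))
    (hR : AE 𝒰 (us₁ ++ w :: us₂) (fun xs => vl p r xs = vl p' r' xs)) :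
    ∀ t, t₀ < t → t < r' → p' t w = false := by
  have hS : ∀ s, t₀ ≤ s → s < r' → TT 𝒰 us₁ w us₂ p' r' (s + 1) := by
    intro s hs0 hs
    obtain ⟨k₁, u, v, k₃, hk, hsv, hu, hv⟩ := hsep s hs0 hs
    subst hk
    exact move hI hC hsv hw (fun t ht _ => hu t ht) (fun t ht _ => hv t ht) hR
  intro t ht0 ht
  refine pass_absent hI ht ?_ (hS t ht0.le ht)
  have := hS (t - 1) (by omega) (by omega)
  rwa [show t - 1 + 1 = t by omega] at this

/-- equality of the prefixes -/
theorem prefix_eq (hI : Idem 𝒰) (hC : FinCent G) {us₁ : List α} {w : α} {us₂ : List α}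
    {p p' : ℕ → α → Bool} {r r' t₀ : ℕ} (hr : t₀ < r) (hr' : t₀ < r')
    (hwt : p t₀ w = true) (hw : ∀ t, t < r → t ≠ t₀ → p t w = false)
    (hwt' : p' t₀ w = true) (hw' : ∀ t, t < r' → t ≠ t₀ → p' t w = false)
    (hR : AE 𝒰 (us₁ ++ w :: us₂) (fun xs => vl p r xs = vl p' r' xs)) :
    AE 𝒰 us₁ (fun l₁ => ∀ᶠ a in (𝒰 : Filter G), AE 𝒰 us₂ (fun l =>
      run (fun t => ps (p t) (l₁ ++ (w, a) :: l)) 0 t₀ * ps (p t₀) l₁ =
      run (fun t => ps (p' t) (l₁ ++ (w, a) :: l)) 0 t₀ * ps (p' t₀) l₁)) := by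
  have key : ∀ (p : ℕ → α → Bool) (r : ℕ), t₀ < r → p t₀ w = true →
      (∀ t, t < r → t ≠ t₀ → p t w = false) → ∀ (l₁ l : List (α × G)),
      ∃ P Q : G, ∀ a, vl p r (l₁ ++ (w, a) :: l) = P * a * Q ∧
        run (fun t => ps (p t) (l₁ ++ (w, a) :: l)) 0 t₀ * ps (p t₀) l₁ = P := by
    intro p r hr hwt hw l₁ l
    refine ⟨run (fun t => ps (p t) (l₁ ++ l)) 0 t₀ * ps (p t₀) l₁,
      ps (p t₀) l * tl p r (t₀ + 1) (l₁ ++ l), fun a => ?_⟩
    have h1 : run (fun t => ps (p t) (l₁ ++ (w, a) :: l)) 0 t₀ =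
        run (fun t => ps (p t) (l₁ ++ l)) 0 t₀ := by
      refine run_congr fun t _ h2 => ?_
      have e1 := hw t (by omega) (by omega)
      simp [e1]
    have h2 : tl p r (t₀ + 1) (l₁ ++ (w, a) :: l) = tl p r (t₀ + 1) (l₁ ++ l) := by
      unfold tl
      refine run_congr fun t h3 h4 => ?_
      have e1 := hw t (by omega) (by omega)
      simp [e1]
    refine ⟨?_, by rw [h1]⟩
    rw [vl_split p hr, h1, h2]
    simp only [ps_append, ps_cons, hwt, if_true, mul_assoc]
  rw [AE.append] at hR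
  refine hR.mono fun l₁ h₁ => ?_
  have h₁' : ∀ᶠ a in (𝒰 : Filter G), AE 𝒰 us₂
      (fun l => vl p r (l₁ ++ (w, a) :: l) = vl p' r' (l₁ ++ (w, a) :: l)) := h₁
  filter_upwards [h₁', hI.gen3 hC] with a ha hga
  obtain ⟨b, hb, hgb⟩ := (h₁'.and hga).exists
  obtain ⟨c, hc, hgc⟩ := (h₁'.and hgb).exists
  refine ((ha.and hb).and hc).mono fun l hl => ?_
  obtain ⟨⟨ea, eb⟩, ec⟩ := hl
  obtain ⟨P, Q, hPQ⟩ := key p r hr hwt hw l₁ l
  obtain ⟨P', Q', hPQ'⟩ := key p' r' hr' hwt' hw' l₁ l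
  rw [(hPQ a).2, (hPQ' a).2]
  rw [(hPQ a).1, (hPQ' a).1] at ea
  rw [(hPQ b).1, (hPQ' b).1] at eb
  rw [(hPQ c).1, (hPQ' c).1] at ec
  have hcomm : ∀ b, P * b * Q = P' * b * Q' → Commute (P'⁻¹ * P) (a * b⁻¹) := by
    intro b eb
    have h3 : P * a * Q * (P * b * Q)⁻¹ = P' * a * Q' * (P' * b * Q')⁻¹ := by rw [ea, eb]
    have h4 : P * a * Q * (P * b * Q)⁻¹ = P * (a * b⁻¹) * P⁻¹ := by group
    have h5 : P' * a * Q' * (P' * b * Q')⁻¹ = P' * (a * b⁻¹) * P'⁻¹ := by group
    rw [h4, h5] at h3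
    show P'⁻¹ * P * (a * b⁻¹) = a * b⁻¹ * (P'⁻¹ * P)
    calc P'⁻¹ * P * (a * b⁻¹) = P'⁻¹ * (P * (a * b⁻¹) * P⁻¹) * P := by group
      _ = P'⁻¹ * (P' * (a * b⁻¹) * P'⁻¹) * P := by rw [h3]
      _ = a * b⁻¹ * (P'⁻¹ * P) := by group
  have h6 := hgc _ (hcomm b eb) (hcomm c ec)
  rw [inv_mul_eq_one] at h6
  exact h6.symm

/-- comparison of two passes -/
theorem cmp (hI : Idem 𝒰) (hC : FinCent G) {f f' : α → Bool} {us : List α} {h h' : G}
    (H : AE 𝒰 us (fun l => ps f l * h = ps f' l * h')) :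
    (∀ u ∈ us, f u = f' u) ∧ h = h' := by
  induction us using List.reverseRecOn generalizing h h' with
  | nil =>
    have : (1 : G) * h = 1 * h' := H
    simpa using this
  | append_singleton us u ih =>
    rw [AE.append] at H
    have H' : AE 𝒰 us (fun l => ∀ᶠ z in (𝒰 : Filter G),
        ps f l * (if f u = true then z else 1) * h =
          ps f' l * (if f' u = true then z else 1) * h') := by
      refine H.mono fun l hl => ?_
      have hl' : ∀ᶠ z in (𝒰 : Filter G), ps f (l ++ [(u, z)]) * h =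
          ps f' (l ++ [(u, z)]) * h' := hl
      refine hl'.mono fun z hz => ?_
      simpa using hz
    cases hf : f u <;> cases hf' : f' u
    · -- both absent
      have H2 : AE 𝒰 us (fun l => ps f l * h = ps f' l * h') := by
        refine H'.mono fun l hl => ?_
        obtain ⟨z, hz⟩ := hl.exists
        simpa [hf, hf'] using hz
      obtain ⟨i1, i2⟩ := ih H2
      refine ⟨fun w hw => ?_, i2⟩
      rcases List.mem_append.1 hw with hw | hw
      · exact i1 w hw
      · rw [List.mem_singleton.1 hw, hf, hf']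
    · exfalso
      have H2 : AE 𝒰 us (fun _ => False) := by
        refine H'.mono fun l hl => ?_
        obtain ⟨z, hz, hne⟩ := (hl.and (hI.nonprin ((ps f' l)⁻¹ * (ps f l * h) * h'⁻¹))).exists
        apply hne
        simp only [hf, hf', Bool.false_eq_true, if_false, if_true, mul_one] at hz
        rw [hz]; group
      exact H2.const
    · exfalso
      have H2 : AE 𝒰 us (fun _ => False) := by
        refine H'.mono fun l hl => ?_
        obtain ⟨z, hz, hne⟩ := (hl.and (hI.nonprin ((ps f l)⁻¹ * (ps f' l * h') * h⁻¹))).exists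
        apply hne
        simp only [hf, hf', Bool.false_eq_true, if_false, if_true, mul_one] at hz
        rw [← hz]; group
      exact H2.const
    · -- both present
      have H2 : AE 𝒰 us (fun l => (ps f l * 1 = ps f' l * 1) ∧ h = h') := by
        refine H'.mono fun l hl => ?_
        simp only [hf, hf', if_true] at hl
        obtain ⟨a, ha, hga⟩ := (hl.and (hI.gen3' hC)).exists
        obtain ⟨b, hb, hgb⟩ := (hl.and hga).exists
        obtain ⟨c, hc, hgc⟩ := (hl.and hgb).exists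
        have hcomm : ∀ b, ps f l * b * h = ps f' l * b * h' →
            Commute (h' * h⁻¹) (a⁻¹ * b) := by
          intro b hb
          have h3 : (ps f l * a * h)⁻¹ * (ps f l * b * h) =
              (ps f' l * a * h')⁻¹ * (ps f' l * b * h') := by rw [ha, hb]
          have h4 : (ps f l * a * h)⁻¹ * (ps f l * b * h) = h⁻¹ * (a⁻¹ * b) * h := by group
          have h5 : (ps f' l * a * h')⁻¹ * (ps f' l * b * h') = h'⁻¹ * (a⁻¹ * b) * h' := by
            group
          rw [h4, h5] at h3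
          show h' * h⁻¹ * (a⁻¹ * b) = a⁻¹ * b * (h' * h⁻¹)
          calc h' * h⁻¹ * (a⁻¹ * b) = h' * (h⁻¹ * (a⁻¹ * b) * h) * h⁻¹ := by group
            _ = h' * (h'⁻¹ * (a⁻¹ * b) * h') * h⁻¹ := by rw [h3]
            _ = a⁻¹ * b * (h' * h⁻¹) := by group
        have h6 := hgc _ (hcomm b hb) (hcomm c hc)
        rw [mul_inv_eq_one] at h6
        refine ⟨?_, h6.symm⟩
        rw [h6] at ha
        have := mul_right_cancel (mul_right_cancel ha)
        rw [this]
      have H3 : AE 𝒰 us (fun l => ps f l * 1 = ps f' l * 1) := H2.mono fun l hl => hl.1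
      have H4 : h = h' := (H2.mono (Q := fun _ => h = h') fun l hl => hl.2).const
      obtain ⟨i1, _⟩ := ih H3
      refine ⟨fun w hw => ?_, H4⟩
      rcases List.mem_append.1 hw with hw | hw
      · exact i1 w hw
      · rw [List.mem_singleton.1 hw, hf, hf']

/-- the state after `t` passes -/
structure St (𝒰 : Ultrafilter G) (p p' : ℕ → α → Bool) (t : ℕ) (A B : List α) : Prop where
  agree : ∀ u ∈ A, ∀ s, s < t → p s u = p' s u
  full : ∀ u ∈ B, ∀ s, s + 1 < t → p s u = p' s u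
  pref : AE 𝒰 A (fun lA => AE 𝒰 B (fun lB =>
    run (fun s => ps (p s) (lA ++ lB)) 0 t * (ps (p (t - 1)) lB)⁻¹ =
    run (fun s => ps (p' s) (lA ++ lB)) 0 t * (ps (p' (t - 1)) lB)⁻¹))

theorem St.zero {p p' : ℕ → α → Bool} {A : List α} : St 𝒰 p p' 0 A [] where
  agree := fun _ _ s hs => absurd hs (by omega)
  full := fun _ _ s hs => absurd hs (by omega)
  pref := AE.of_forall fun lA => by
    show run _ 0 0 * (ps _ [])⁻¹ = run _ 0 0 * (ps _ [])⁻¹
    simp

theorem step (hI : Idem 𝒰) (hC : FinCent G) {p p' : ℕ → α → Bool} {r r' t : ℕ}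
    {A₁ A₂ B : List α} {w : α}
    (hR : AE 𝒰 (A₁ ++ w :: (A₂ ++ B)) (fun xs => vl p r xs = vl p' r' xs))
    (htr : t < r) (hwt : p t w = true) (hw : ∀ s, s < r → s ≠ t → p s w = false)
    (hS : HasE p r A₂) (hS' : HasE p' r' A₂) (hSt : St 𝒰 p p' t (A₁ ++ w :: A₂) B) :
    t < r' ∧ St 𝒰 p p' (t + 1) A₁ (w :: (A₂ ++ B)) := by
  obtain ⟨agree, full, pref⟩ := hSt
  have hSB : HasE p r (A₂ ++ B) := by
    intro s hs
    obtain ⟨k₁, u, v, k₃, hk, h⟩ := hS s hs
    exact ⟨k₁, u, v, k₃ ++ B, by simp [hk], h⟩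
  have hR' : AE 𝒰 (A₁ ++ w :: (A₂ ++ B)) (fun xs => vl p' r' xs = vl p r xs) :=
    hR.mono fun _ h => h.symm
  -- pattern of `w` in the second word
  have h1 : ∀ s, s < t → p' s w = false := by
    intro s hs
    rw [← agree w (by simp) s hs]
    exact hw s (by omega) (by omega)
  have h2 : ∀ s, t < s → s < r' → p' s w = false := by
    refine after hI hC hw ?_ hR
    intro s hs0 hs
    obtain ⟨k₁, u, v, k₃, hk, h⟩ := hS' s hs
    refine ⟨k₁, u, v, k₃ ++ B, by simp [hk], h, ?_, ?_⟩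
    · intro t' ht'
      rw [agree u (by simp [hk]) t' ht']
      exact h.nmem t' (by omega) (by omega)
    · intro t' ht'
      rw [agree v (by simp [hk]) t' ht']
      exact h.nmem' t' (by omega)
  have h3 : t < r' ∧ p' t w = true := by
    by_contra hcon
    have h4 : ∀ s, s < r' → p' s w = false := by
      intro s hs
      rcases lt_trichotomy s t with h | h | h
      · exact h1 s h
      · subst h
        by_contra h5
        exact hcon ⟨hs, by simpa using h5⟩
      · exact h2 s h hs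
    have h5 := absent hI hC h4 hSB hR' t htr
    rw [hwt] at h5
    exact absurd h5 (by simp)
  obtain ⟨htr', hwt'⟩ := h3
  have hw' : ∀ s, s < r' → s ≠ t → p' s w = false := by
    intro s hs hne
    rcases lt_trichotomy s t with h | h | h
    · exact h1 s h
    · exact absurd h hne
    · exact h2 s h hs
  have hP := prefix_eq hI hC htr htr' hwt hw hwt' hw' hR
  -- comparison with the previous prefix relation
  have pref' : AE 𝒰 A₁ (fun l₁ => ∀ᶠ a in (𝒰 : Filter G), AE 𝒰 A₂ (fun l₂ => AE 𝒰 B (fun lB =>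
      run (fun s => ps (p s) (l₁ ++ (w, a) :: (l₂ ++ lB))) 0 t * (ps (p (t - 1)) lB)⁻¹ =
      run (fun s => ps (p' s) (l₁ ++ (w, a) :: (l₂ ++ lB))) 0 t *
        (ps (p' (t - 1)) lB)⁻¹))) := by
    have := AE.append.1 pref
    refine this.mono fun l₁ h => ?_
    have h' : ∀ᶠ a in (𝒰 : Filter G), AE 𝒰 A₂ (fun l₂ => AE 𝒰 B (fun lB =>
      run (fun s => ps (p s) ((l₁ ++ (w, a) :: l₂) ++ lB)) 0 t * (ps (p (t - 1)) lB)⁻¹ =
      run (fun s => ps (p' s) ((l₁ ++ (w, a) :: l₂) ++ lB)) 0 t *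
        (ps (p' (t - 1)) lB)⁻¹)) := h
    simpa only [List.append_assoc, List.cons_append] using h'
  have hP' : AE 𝒰 A₁ (fun l₁ => ∀ᶠ a in (𝒰 : Filter G), AE 𝒰 A₂ (fun l₂ => AE 𝒰 B (fun lB =>
      run (fun t => ps (p t) (l₁ ++ (w, a) :: (l₂ ++ lB))) 0 t * ps (p t) l₁ =
      run (fun t => ps (p' t) (l₁ ++ (w, a) :: (l₂ ++ lB))) 0 t * ps (p' t) l₁))) := by
    refine hP.mono fun l₁ h => h.mono fun a ha => ?_
    exact AE.append.1 ha
  have hcmp : AE 𝒰 A₁ (fun l₁ => ((∀ u ∈ B, p (t - 1) u = p' (t - 1) u) ∧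
      ps (p t) l₁ * 1 = ps (p' t) l₁ * 1)) := by
    refine (pref'.and hP').mono fun l₁ h => ?_
    obtain ⟨ha, hb⟩ := h
    obtain ⟨a, ha, hb⟩ := (ha.and hb).exists
    have h5 : AE 𝒰 A₂ (fun _ => (∀ u ∈ B, p (t - 1) u = p' (t - 1) u) ∧
        ps (p t) l₁ = ps (p' t) l₁) := by
      refine (ha.and hb).mono fun l₂ h => ?_
      refine cmp hI hC (𝒰 := 𝒰) ((h.1.and h.2).mono fun lB hl => ?_)
      obtain ⟨e1, e2⟩ := hl
      have e3 : ps (p (t - 1)) lB * ps (p t) l₁ =
          (run (fun s => ps (p s) (l₁ ++ (w, a) :: (l₂ ++ lB))) 0 t *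
            (ps (p (t - 1)) lB)⁻¹)⁻¹ *
          (run (fun t => ps (p t) (l₁ ++ (w, a) :: (l₂ ++ lB))) 0 t * ps (p t) l₁) := by
        group
      rw [e3, e1, e2]
      group
    have h6 := h5.const
    exact ⟨h6.1, by rw [h6.2]⟩
  have hB : ∀ u ∈ B, p (t - 1) u = p' (t - 1) u :=
    (hcmp.mono (Q := fun _ => ∀ u ∈ B, p (t - 1) u = p' (t - 1) u) fun _ h => h.1).const
  have hA1 : ∀ u ∈ A₁, p t u = p' t u := by
    have h7 : AE 𝒰 A₁ (fun l₁ => ps (p t) l₁ * 1 = ps (p' t) l₁ * 1) :=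
      hcmp.mono fun _ h => h.2
    exact (cmp hI hC h7).1
  refine ⟨htr', ⟨?_, ?_, ?_⟩⟩
  · intro u hu s hs
    rcases Nat.lt_succ_iff_lt_or_eq.1 hs with h | h
    · exact agree u (by simp [hu]) s h
    · rw [h]; exact hA1 u hu
  · intro u hu s hs
    have hst : s < t := by omega
    rcases List.mem_cons.1 hu with h | h
    · rw [h]; exact agree w (by simp) s hst
    · rcases List.mem_append.1 h with h | h
      · exact agree u (by simp [h]) s hst
      · rcases Nat.lt_or_ge (s + 1) t with h' | h'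
        · exact full u h s h'
        · have : s = t - 1 := by omega
          rw [this]; exact hB u h
  · refine hP.mono fun l₁ h => ?_
    show ∀ᶠ a in (𝒰 : Filter G), AE 𝒰 (A₂ ++ B) (fun l =>
      run (fun s => ps (p s) (l₁ ++ (w, a) :: l)) 0 (t + 1) *
        (ps (p (t + 1 - 1)) ((w, a) :: l))⁻¹ =
      run (fun s => ps (p' s) (l₁ ++ (w, a) :: l)) 0 (t + 1) *
        (ps (p' (t + 1 - 1)) ((w, a) :: l))⁻¹)
    refine h.mono fun a ha => ha.mono fun l hl => ?_
    have e : ∀ p : ℕ → α → Bool, run (fun s => ps (p s) (l₁ ++ (w, a) :: l)) 0 (t + 1) *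
        (ps (p (t + 1 - 1)) ((w, a) :: l))⁻¹ =
        run (fun s => ps (p s) (l₁ ++ (w, a) :: l)) 0 t * ps (p t) l₁ := by
      intro p
      rw [run_add, run_one, zero_add, Nat.add_sub_cancel, ps_append]
      group
    rw [e, e]
    exact hl

end Pool.Agent.Rich
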