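import Pool.Agent.Lib.MP_830418_an.Rich.Gen

/-!
Problem MP_830418_an.  Rich words, part 2: values of passes and words.
-/

namespace Pool.Agent.Rich

universe u v

variable {G : Type u} [Group G] {α : Type v}

/-- value of a pass: the product of the letters whose label is in the pass -/
def ps (f : α → Bool) (xs : List (α × G)) : G :=
  (xs.map (fun q => if f q.1 = true then q.2 else 1)).prod

@[simp] theorem ps_nil (f : α → Bool) : ps f ([] : List (α × G)) = 1 := rfl

@[simp] theorem ps_cons (f : α → Bool) (q : α × G) (xs : List (α × G)) :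
    ps f (q :: xs) = (if f q.1 = true then q.2 else 1) * ps f xs := by
  simp [ps]

@[simp] theorem ps_append (f : α → Bool) (xs ys : List (α × G)) :
    ps f (xs ++ ys) = ps f xs * ps f ys := by
  simp [ps]

/-- `f s * f (s+1) * ... * f (s+n-1)` -/
def run (f : ℕ → G) : ℕ → ℕ → G
  | _, 0 => 1
  | s, n + 1 => f s * run f (s + 1) n

@[simp] theorem run_zero (f : ℕ → G) (s : ℕ) : run f s 0 = 1 := rfl

theorem run_succ (f : ℕ → G) (s n : ℕ) : run f s (n + 1) = f s * run f (s + 1) n := rfl

theorem run_add (f : ℕ → G) (s m n : ℕ) : run f s (m + n) = run f s m * run f (s + m) n := by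
  induction m generalizing s with
  | zero => simp
  | succ m ih =>
    rw [show m + 1 + n = (m + n) + 1 by ring, run_succ, run_succ, ih, mul_assoc,
      show s + 1 + m = s + (m + 1) by ring]

theorem run_one (f : ℕ → G) (s : ℕ) : run f s 1 = f s := by
  rw [show (1 : ℕ) = 0 + 1 from rfl, run_succ, run_zero, mul_one]

theorem run_congr {f g : ℕ → G} {s n : ℕ} (h : ∀ t, s ≤ t → t < s + n → f t = g t) :
    run f s n = run g s n := by
  induction n generalizing s with
  | zero => rfl
  | succ n ih =>
    rw [run_succ, run_succ, h s le_rfl (by omega)]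
    congr 1
    exact ih fun t ht ht' => h t (by omega) (by omega)

/-- split at the place `s` -/
theorem run_split (f : ℕ → G) {s n : ℕ} (h : s < n) :
    run f 0 n = run f 0 s * f s * run f (s + 1) (n - (s + 1)) := by
  have h1 : n = s + (1 + (n - (s + 1))) := by omega
  conv_lhs => rw [h1]
  rw [run_add, run_add, run_one, zero_add, mul_assoc]

theorem run_cut (f : ℕ → G) {s n : ℕ} (h : s < n) :
    run f s (n - s) = f s * run f (s + 1) (n - (s + 1)) := by
  have h1 : n - s = (n - (s + 1)) + 1 := by omega
  rw [h1, run_succ]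

theorem run_list (f : ℕ → G) (n : ℕ) : run f 0 n = ((List.range n).map f).prod := by
  have key : ∀ n s, run f s n = ((List.range' s n).map f).prod := by
    intro n
    induction n with
    | zero => intro s; simp
    | succ n ih =>
      intro s
      rw [run_succ, ih, List.range'_succ]
      simp
  rw [key, List.range_eq_range']

/-- value of the word with passes `p 0, ..., p (r-1)` -/
def vl (p : ℕ → α → Bool) (r : ℕ) (xs : List (α × G)) : G := run (fun t => ps (p t) xs) 0 r

/-- product of the passes `s, ..., r - 1` -/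
def tl (p : ℕ → α → Bool) (r s : ℕ) (xs : List (α × G)) : G :=
  run (fun t => ps (p t) xs) s (r - s)

theorem vl_eq_tl (p : ℕ → α → Bool) (r : ℕ) (xs : List (α × G)) : vl p r xs = tl p r 0 xs := rfl

theorem tl_cut (p : ℕ → α → Bool) {r s : ℕ} (h : s < r) (xs : List (α × G)) :
    tl p r s xs = ps (p s) xs * tl p r (s + 1) xs := run_cut _ h

theorem tl_last (p : ℕ → α → Bool) (r : ℕ) (xs : List (α × G)) : tl p r r xs = 1 := by
  simp [tl]

theorem vl_split (p : ℕ → α → Bool) {r s : ℕ} (h : s < r) (xs : List (α × G)) :
    vl p r xs = run (fun t => ps (p t) xs) 0 s * ps (p s) xs * tl p r (s + 1) xs :=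
  run_split _ h

end Pool.Agent.Rich
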